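import Mathlib

/-!
# Derivations detect transcendental elements (characteristic zero)
-/

namespace Pool.Agent.H91.DG

open scoped TensorProduct IntermediateField.algebraAdjoinAdjoin

/-- in characteristic zero every transcendental element is moved by some derivation -/
theorem exists_derivation {k₀ k : Type*} [Field k₀] [CharZero k₀] [Field k] [Algebra k₀ k] {β : k}
    (hβ : Transcendental k₀ β) : ∃ D : Derivation k₀ k k, D β ≠ 0 := by
  classical
  have h1 : AlgebraicIndepOn k₀ id ({β} : Set k) := by
    have := (algebraicIndependent_unique_type_iff (R := k₀) (x := fun b : ({β} : Set k) => (b : k))).2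
      (by simpa using hβ)
    exact this
  obtain ⟨t, ht, hbasis⟩ := exists_isTranscendenceBasis_superset h1
  have hβt : β ∈ t := ht rfl
  let v : t → k := fun x => x
  have hv : IsTranscendenceBasis k₀ v := hbasis
  let A := Algebra.adjoin k₀ (Set.range v)
  let E := IntermediateField.adjoin k₀ (Set.range v)
  have halg : Algebra.IsAlgebraic E k := hv.isAlgebraic_field
  have hsep : Algebra.IsSeparable E k := inferInstance
  have het1 : Algebra.FormallyEtale E k := Algebra.FormallyEtale.of_isSeparable E k
  have het2 : Algebra.FormallyEtale A E :=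
    Algebra.FormallyEtale.of_isLocalization (nonZeroDivisors A)
  have het : Algebra.FormallyEtale A k := Algebra.FormallyEtale.comp A E k
  let e : MvPolynomial t k₀ ≃ₐ[k₀] A := hv.1.aevalEquiv
  let i : t := ⟨β, hβt⟩
  let DA : Derivation k₀ A A := Derivation.mk'
    (e.toLinearMap ∘ₗ (MvPolynomial.pderiv i).toLinearMap ∘ₗ e.symm.toLinearMap) (by
      intro a b
      show e (MvPolynomial.pderiv i (e.symm (a * b))) =
        a • e (MvPolynomial.pderiv i (e.symm b)) + b • e (MvPolynomial.pderiv i (e.symm a))
      rw [map_mul, Derivation.leibniz, map_add, smul_eq_mul, smul_eq_mul, map_mul, map_mul,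
        e.apply_symm_apply, e.apply_symm_apply, smul_eq_mul, smul_eq_mul])
  let ℓ : Ω[A⁄k₀] →ₗ[A] k := (Algebra.linearMap A k) ∘ₗ DA.liftKaehlerDifferential
  let Φ : Ω[k⁄k₀] →ₗ[k] k := (ℓ.liftBaseChange k) ∘ₗ
    (KaehlerDifferential.tensorKaehlerEquivOfFormallyEtale k₀ A k).symm.toLinearMap
  refine ⟨Φ.compDer (KaehlerDifferential.D k₀ k), ?_⟩
  let b : A := e (MvPolynomial.X i)
  have hb : algebraMap A k b = β := by
    show algebraMap A k (hv.1.aevalEquiv (MvPolynomial.X i)) = β
    rw [hv.1.algebraMap_aevalEquiv, MvPolynomial.aeval_X]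
  have h2 : (Φ.compDer (KaehlerDifferential.D k₀ k)) β = 1 := by
    rw [← hb]
    show (ℓ.liftBaseChange k) ((KaehlerDifferential.tensorKaehlerEquivOfFormallyEtale k₀ A k).symm
      (KaehlerDifferential.D k₀ k (algebraMap A k b))) = 1
    rw [KaehlerDifferential.tensorKaehlerEquivOfFormallyEtale_symm_D_algebraMap,
      LinearMap.liftBaseChange_one_tmul]
    show algebraMap A k (DA.liftKaehlerDifferential (KaehlerDifferential.D k₀ A b)) = 1
    rw [Derivation.liftKaehlerDifferential_comp_D]
    show algebraMap A k (e ((MvPolynomial.pderiv i) (e.symm b))) = 1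
    simp only [b, AlgEquiv.symm_apply_apply, MvPolynomial.pderiv_X_self, map_one]
  rw [h2]
  exact one_ne_zero

/-- extension of scalars of a derivation -/
noncomputable def extDer {k₀ k : Type*} (F : Type*) [Field k₀] [Field k] [Algebra k₀ k]
    [Field F] [Algebra k₀ F] (D : Derivation k₀ k k) : Derivation F (F ⊗[k₀] k) (F ⊗[k₀] k) :=
  Derivation.mk' (LinearMap.baseChange F (D : k →ₗ[k₀] k)) (by
    intro x y
    induction x using TensorProduct.induction_on with
    | zero => simp
    | add x x' hx hx' =>
      rw [add_mul, map_add, hx, hx', map_add, smul_add, add_smul]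
      abel
    | tmul a u =>
      induction y using TensorProduct.induction_on with
      | zero => simp
      | add y y' hy hy' =>
        rw [mul_add, map_add, hy, hy', map_add, smul_add, add_smul]
        abel
      | tmul b v =>
        simp only [Algebra.TensorProduct.tmul_mul_tmul, LinearMap.baseChange_tmul,
          Derivation.coeFn_coe, Derivation.leibniz, smul_eq_mul, TensorProduct.tmul_add]
        rw [mul_comm b a])

theorem extDer_tmul {k₀ k F : Type*} [Field k₀] [Field k] [Algebra k₀ k]
    [Field F] [Algebra k₀ F] (D : Derivation k₀ k k) (a : F) (u : k) :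
    extDer F D (a ⊗ₜ[k₀] u) = a ⊗ₜ[k₀] D u := by
  show LinearMap.baseChange F (D : k →ₗ[k₀] k) (a ⊗ₜ[k₀] u) = _
  rw [LinearMap.baseChange_tmul]
  rfl

/-- roots in `F ⊗ k` of a separable polynomial over `F` have algebraic right coefficients -/
theorem right_alg {k₀ k F : Type*} [Field k₀] [CharZero k₀] [Field k] [Algebra k₀ k]
    [Field F] [Algebra k₀ F] {P : Polynomial F} (hP : P.Separable) {ι : Type*} [Fintype ι]
    (d : ι → F) (f : ι → k) (h : Polynomial.aeval (∑ i, d i ⊗ₜ[k₀] f i) P = 0)
    (θ : F →ₗ[k₀] k₀) : IsAlgebraic k₀ (∑ i, algebraMap k₀ k (θ (d i)) * f i) := by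
  by_contra hcon
  obtain ⟨D, hD⟩ := exists_derivation hcon
  apply hD
  set r : F ⊗[k₀] k := ∑ i, d i ⊗ₜ[k₀] f i with hr
  have h1 : extDer F D (Polynomial.aeval r P) = 0 := by rw [h, map_zero]
  rw [Derivation.map_aeval] at h1
  obtain ⟨u, v, huv⟩ := hP
  have h2 : Polynomial.aeval r v * Polynomial.aeval r (Polynomial.derivative P) = 1 := by
    have := congrArg (Polynomial.aeval r) huv
    rw [map_add, map_mul, map_mul, h, mul_zero, zero_add, map_one] at this
    exact this
  have h3 : extDer F D r = 0 := by
    rw [smul_eq_mul] at h1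
    calc extDer F D r = (Polynomial.aeval r v * Polynomial.aeval r (Polynomial.derivative P)) *
          extDer F D r := by rw [h2, one_mul]
      _ = 0 := by rw [mul_assoc, h1, mul_zero]
  rw [hr, map_sum] at h3
  simp only [extDer_tmul] at h3
  have h4 := congrArg ((TensorProduct.lid k₀ k).toLinearMap ∘ₗ LinearMap.rTensor k θ) h3
  simp only [map_sum, LinearMap.comp_apply, LinearMap.rTensor_tmul, LinearEquiv.coe_coe,
    TensorProduct.lid_tmul, map_zero] at h4
  have h5 : D (∑ i, algebraMap k₀ k (θ (d i)) * f i) = ∑ i, θ (d i) • D (f i) := by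
    rw [map_sum]
    refine Finset.sum_congr rfl fun i _ => ?_
    rw [← Algebra.smul_def, Derivation.map_smul]
  rw [h5]
  exact h4

end Pool.Agent.H91.DG
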