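import Pool.Agent.H91.DG.Fatou

/-!
# Fatou's theorem, final form
-/

namespace Pool.Agent.H91.DG

open PowerSeries Finset LaurentSeries
open scoped RatFunc

instance tower3 : IsScalarTower (Polynomial ℚ) (PowerSeries ℚ) (LaurentSeries ℚ) :=
  IsScalarTower.of_algebraMap_eq fun _ => rfl

/-- a power series with bounded coefficients and a common denominator -/
def Nice (f : PowerSeries ℚ) : Prop :=
  (∃ B : ℚ, ∀ k, |coeff k f| ≤ B) ∧ ∃ M : ℕ, M ≠ 0 ∧ ∀ k, ∃ a : ℤ, (M : ℚ) * coeff k f = a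

theorem Nice.add {f g : PowerSeries ℚ} (hf : Nice f) (hg : Nice g) : Nice (f + g) := by
  obtain ⟨⟨B, hB⟩, M, hM, hM'⟩ := hf
  obtain ⟨⟨B', hB'⟩, M', hM1, hM1'⟩ := hg
  refine ⟨⟨B + B', fun k => ?_⟩, M * M', mul_ne_zero hM hM1, fun k => ?_⟩
  · rw [map_add]
    exact (abs_add_le _ _).trans (add_le_add (hB k) (hB' k))
  · obtain ⟨a, ha⟩ := hM' k
    obtain ⟨a', ha'⟩ := hM1' k
    refine ⟨M' * a + M * a', ?_⟩
    rw [map_add]
    push_cast
    rw [← ha, ← ha']
    ring

theorem Nice.zero : Nice 0 := by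
  refine ⟨⟨0, fun k => by simp⟩, 1, one_ne_zero, fun k => ⟨0, by simp⟩⟩

theorem Nice.sum {ι : Type*} (s : Finset ι) (f : ι → PowerSeries ℚ) (h : ∀ i ∈ s, Nice (f i)) :
    Nice (∑ i ∈ s, f i) := by
  classical
  induction s using Finset.induction_on with
  | empty => simpa using Nice.zero
  | insert a s ha ih =>
    rw [Finset.sum_insert ha]
    exact (h a (Finset.mem_insert_self _ _)).add
      (ih fun i hi => h i (Finset.mem_insert_of_mem hi))

theorem Nice.C_mul {f : PowerSeries ℚ} (hf : Nice f) (q : ℚ) : Nice (C q * f) := by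
  obtain ⟨⟨B, hB⟩, M, hM, hM'⟩ := hf
  refine ⟨⟨|q| * B, fun k => ?_⟩, M * q.den, mul_ne_zero hM q.den_nz, fun k => ?_⟩
  · rw [coeff_C_mul, abs_mul]
    exact mul_le_mul_of_nonneg_left (hB k) (abs_nonneg _)
  · obtain ⟨a, ha⟩ := hM' k
    refine ⟨q.num * a, ?_⟩
    rw [coeff_C_mul]
    push_cast
    rw [← ha, ← Rat.mul_den_eq_num q]
    ring

theorem Nice.X_mul {f : PowerSeries ℚ} (hf : Nice f) : Nice (X * f) := by
  obtain ⟨⟨B, hB⟩, M, hM, hM'⟩ := hf
  refine ⟨⟨B, fun k => ?_⟩, M, hM, fun k => ?_⟩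
  · rcases k with _ | k
    · rw [coeff_zero_X_mul, abs_zero]
      exact (abs_nonneg _).trans (hB 0)
    · rw [coeff_succ_X_mul]
      exact hB k
  · rcases k with _ | k
    · exact ⟨0, by rw [coeff_zero_X_mul]; simp⟩
    · rw [coeff_succ_X_mul]
      exact hM' k

theorem Nice.poly_mul {f : PowerSeries ℚ} (hf : Nice f) (p : Polynomial ℚ) :
    Nice ((p : PowerSeries ℚ) * f) := by
  induction p using Polynomial.induction_on' with
  | add p q hp hq =>
    rw [Polynomial.coe_add, add_mul]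
    exact hp.add hq
  | monomial n a =>
    rw [← Polynomial.C_mul_X_pow_eq_monomial, Polynomial.coe_mul, Polynomial.coe_C,
      Polynomial.coe_pow, Polynomial.coe_X, mul_assoc]
    refine Nice.C_mul ?_ a
    induction n with
    | zero => simpa using hf
    | succ n ih =>
      rw [pow_succ', mul_assoc]
      exact ih.X_mul

/-- **Fatou**: a nice power series which is algebraic over `ℚ(X)` is a rational function -/
theorem fatou {f : PowerSeries ℚ} (hf : Nice f)
    (halg : IsAlgebraic (RatFunc ℚ) (f : LaurentSeries ℚ)) :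
    ∃ κ : RatFunc ℚ, algebraMap (RatFunc ℚ) (LaurentSeries ℚ) κ = (f : LaurentSeries ℚ) := by
  have h1 : IsAlgebraic (Polynomial ℚ) (f : LaurentSeries ℚ) :=
    (IsFractionRing.isAlgebraic_iff (Polynomial ℚ) (RatFunc ℚ) (LaurentSeries ℚ)).2 halg
  obtain ⟨y, hy, hint⟩ := h1.exists_integral_multiple
  have e1 : y • (f : LaurentSeries ℚ) = algebraMap (PowerSeries ℚ) (LaurentSeries ℚ)
      ((y : PowerSeries ℚ) * f) := by
    rw [map_mul, Algebra.smul_def, IsScalarTower.algebraMap_apply (Polynomial ℚ) (PowerSeries ℚ)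
      (LaurentSeries ℚ)]
    rfl
  rw [e1, isIntegral_algebraMap_iff HahnSeries.ofPowerSeries_injective] at hint
  have hnice := hf.poly_mul y
  obtain ⟨⟨B, hB⟩, M, hM, hM'⟩ := hnice
  obtain ⟨R, hR0, hR⟩ := integral_bdd hB hint
  obtain ⟨p, hp⟩ := poly_of_bdd hB hM hM' hR0 hR
  refine ⟨algebraMap (Polynomial ℚ) (RatFunc ℚ) p / algebraMap (Polynomial ℚ) (RatFunc ℚ) y, ?_⟩
  rw [RatFunc.algebraMap_apply_div]
  have hy' : algebraMap (Polynomial ℚ) (LaurentSeries ℚ) y ≠ 0 := by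
    intro h
    exact hy (FaithfulSMul.algebraMap_injective (Polynomial ℚ) (LaurentSeries ℚ)
      (h.trans (map_zero _).symm))
  rw [div_eq_iff hy', IsScalarTower.algebraMap_apply (Polynomial ℚ) (PowerSeries ℚ)
      (LaurentSeries ℚ) p, IsScalarTower.algebraMap_apply (Polynomial ℚ) (PowerSeries ℚ)
      (LaurentSeries ℚ) y]
  have e2 : algebraMap (Polynomial ℚ) (PowerSeries ℚ) p = (p : PowerSeries ℚ) := rfl
  have e3 : algebraMap (Polynomial ℚ) (PowerSeries ℚ) y = (y : PowerSeries ℚ) := rfl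
  rw [e2, e3, hp, map_mul, mul_comm]
  rfl

end Pool.Agent.H91.DG
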