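import Pool.Agent.H91.DG.Root
import Pool.Agent.H91.DG.Der
import Pool.Agent.H91.DG.FatouB

/-!
# Abstract form of the main theorem
-/

namespace Pool.Agent.H91.DG

open Finset PowerSeries
open scoped RatFunc LaurentSeries TensorProduct

variable {F : Type*} [Field F] [LinearOrder F] [IsStrictOrderedRing F] {b : F} {Z : Subring F}
  [Algebra (RatFunc ℚ) F]

/-- rational combinations of nice power series which are algebraic are rational -/
theorem comb_rational {C : ℕ} (f : Fin C → PowerSeries ℚ) (hf : ∀ i, Nice (f i))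
    (c : Fin C → RatFunc ℚ)
    (h : IsAlgebraic (RatFunc ℚ) (∑ i, algebraMap (RatFunc ℚ) (LaurentSeries ℚ) (c i) *
      (f i : LaurentSeries ℚ))) :
    ∃ κ : RatFunc ℚ, algebraMap (RatFunc ℚ) (LaurentSeries ℚ) κ =
      ∑ i, algebraMap (RatFunc ℚ) (LaurentSeries ℚ) (c i) * (f i : LaurentSeries ℚ) := by
  obtain ⟨q, hq⟩ := IsLocalization.exist_integer_multiples_of_finite
    (nonZeroDivisors (Polynomial ℚ)) c
  choose p hp using hq
  set S := ∑ i, algebraMap (RatFunc ℚ) (LaurentSeries ℚ) (c i) * (f i : LaurentSeries ℚ) with hSdef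
  have hq0 : algebraMap (Polynomial ℚ) (RatFunc ℚ) (q : Polynomial ℚ) ≠ 0 := by
    have := nonZeroDivisors.coe_ne_zero q
    exact (map_ne_zero_iff _ (IsFractionRing.injective (Polynomial ℚ) (RatFunc ℚ))).2 this
  have h1 : (∑ i, (p i : PowerSeries ℚ) * f i : PowerSeries ℚ) =
      algebraMap (RatFunc ℚ) (LaurentSeries ℚ) (algebraMap (Polynomial ℚ) (RatFunc ℚ) q) * S := by
    rw [map_sum, hSdef, Finset.mul_sum]
    refine Finset.sum_congr rfl fun i _ => ?_
    have h2 := hp i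
    rw [Algebra.smul_def] at h2
    have h3 : algebraMap (RatFunc ℚ) (LaurentSeries ℚ) (algebraMap (Polynomial ℚ) (RatFunc ℚ) q) *
        algebraMap (RatFunc ℚ) (LaurentSeries ℚ) (c i) = ((p i : PowerSeries ℚ) : LaurentSeries ℚ) := by
      rw [← map_mul, ← h2, ← IsScalarTower.algebraMap_apply]
      rfl
    rw [← mul_assoc, h3, map_mul]
  have hnice : Nice (∑ i, (p i : PowerSeries ℚ) * f i) :=
    Nice.sum _ _ fun i _ => (hf i).poly_mul (p i)
  obtain ⟨κ, hκ⟩ := fatou hnice (by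
    rw [h1]
    exact (isAlgebraic_algebraMap _).mul h)
  refine ⟨κ / algebraMap (Polynomial ℚ) (RatFunc ℚ) q, ?_⟩
  rw [map_div₀, hκ, h1, mul_div_cancel_left₀]
  exact (map_ne_zero _).2 hq0

theorem exists_root (hX : algebraMap (RatFunc ℚ) F RatFunc.X = b⁻¹) (hS : Sys b Z) {C : ℕ}
    (d : Fin C → F) (hd : ∀ i, d i ∈ Z) (hd' : ∀ i, Bd b 1 (d i)) (f : Fin C → PowerSeries ℚ)
    (hf : ∀ i, Nice (f i))
    (P : Polynomial F) (hsep : P.Separable) (A : ℕ) (hP : ∀ j, P.coeff j ∈ Z)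
    (hP' : ∀ j, Bd b A (P.coeff j))
    (m : ℕ) (h : ∀ N, Bd b m (b ^ N * P.eval (∑ i, d i * Ev b N (f i)))) :
    ∃ ρ : F, P.eval ρ = 0 := by
  classical
  have hroot := root_tensor hX hS d hd hd' f P A hP hP' m h
  set r := ∑ i, d i ⊗ₜ[RatFunc ℚ] (f i : LaurentSeries ℚ) with hr
  let B := Module.Basis.ofVectorSpace (RatFunc ℚ) F
  let e := TensorProduct.equivFinsuppOfBasisLeft (N := LaurentSeries ℚ) B
  have he : ∀ j, e r j = ∑ i, algebraMap (RatFunc ℚ) (LaurentSeries ℚ) (B.coord j (d i)) *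
      (f i : LaurentSeries ℚ) := by
    intro j
    rw [hr, map_sum, Finsupp.finsetSum_apply]
    refine Finset.sum_congr rfl fun i _ => ?_
    rw [TensorProduct.equivFinsuppOfBasisLeft_apply_tmul_apply, Algebra.smul_def]
    rfl
  have hκ : ∀ j, ∃ κ : RatFunc ℚ, algebraMap (RatFunc ℚ) (LaurentSeries ℚ) κ = e r j := by
    intro j
    rw [he]
    exact comb_rational f hf _ (right_alg hsep d _ hroot (B.coord j))
  choose κ hκ using hκ
  let ρ : F := B.repr.symm (Finsupp.onFinset (e r).support κ (by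
    intro j hj
    rw [Finsupp.mem_support_iff, ← hκ]
    exact (map_ne_zero _).2 hj))
  have hρ : r = ρ ⊗ₜ[RatFunc ℚ] (1 : LaurentSeries ℚ) := by
    apply e.injective
    ext1 j
    rw [← hκ j, TensorProduct.equivFinsuppOfBasisLeft_apply_tmul_apply]
    simp only [ρ, LinearEquiv.apply_symm_apply, Finsupp.onFinset_apply, Algebra.smul_def, mul_one]
  refine ⟨ρ, ?_⟩
  have h1 : algebraMap F (F ⊗[RatFunc ℚ] LaurentSeries ℚ) (P.eval ρ) = 0 := by
    rw [← hroot, hρ]
    have : ρ ⊗ₜ[RatFunc ℚ] (1 : LaurentSeries ℚ) =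
        algebraMap F (F ⊗[RatFunc ℚ] LaurentSeries ℚ) ρ := rfl
    rw [this, Polynomial.aeval_algebraMap_apply]
    simp
  have hinj : Function.Injective (algebraMap F (F ⊗[RatFunc ℚ] LaurentSeries ℚ)) :=
    (algebraMap F (F ⊗[RatFunc ℚ] LaurentSeries ℚ)).injective
  exact hinj (h1.trans (map_zero _).symm)

end Pool.Agent.H91.DG
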