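import Mathlib

/-!
# Evaluation of power series inside the unit disc
-/

namespace Pool.Agent.H91.DG

open PowerSeries Finset

/-- term of the power series at `z` -/
noncomputable def tm (z : ℂ) (f : PowerSeries ℚ) (k : ℕ) : ℂ := ((coeff k f : ℚ) : ℂ) * z ^ k

theorem tm_add (z : ℂ) (f g : PowerSeries ℚ) (k : ℕ) : tm z (f + g) k = tm z f k + tm z g k := by
  simp only [tm, map_add]; push_cast; ring

theorem tm_mul (z : ℂ) (f g : PowerSeries ℚ) (k : ℕ) :
    tm z (f * g) k = ∑ p ∈ antidiagonal k, tm z f p.1 * tm z g p.2 := by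
  simp only [tm, coeff_mul]
  push_cast
  rw [Finset.sum_mul]
  refine Finset.sum_congr rfl fun p hp => ?_
  rw [HasAntidiagonal.mem_antidiagonal] at hp
  rw [← hp, pow_add]
  ring

theorem tm_summable_poly (z : ℂ) (p : Polynomial ℚ) :
    Summable fun k => ‖tm z (p : PowerSeries ℚ) k‖ := by
  refine summable_of_ne_finset_zero (s := p.support) fun k hk => ?_
  simp only [tm, Polynomial.coeff_coe]
  rw [Polynomial.notMem_support_iff.1 hk]
  simp

/-- power series which converge absolutely at `z` -/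
noncomputable def SS (z : ℂ) : Subring (PowerSeries ℚ) where
  carrier := {f | Summable fun k => ‖tm z f k‖}
  mul_mem' := by
    intro f g hf hg
    have h := summable_norm_sum_mul_antidiagonal_of_summable_norm hf hg
    simpa only [Set.mem_ofPred_eq, tm_mul] using h
  one_mem' := by
    have := tm_summable_poly z 1
    simpa using this
  add_mem' := by
    intro f g hf hg
    refine Summable.of_nonneg_of_le (fun _ => norm_nonneg _) (fun k => ?_) (hf.add hg)
    rw [tm_add]
    exact norm_add_le _ _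
  zero_mem' := by
    have := tm_summable_poly z 0
    simpa using this
  neg_mem' := by
    intro f hf
    refine (summable_congr fun k => ?_).2 hf
    simp [tm]

/-- evaluation at `z` -/
noncomputable def evz (z : ℂ) : SS z →+* ℂ where
  toFun f := ∑' k, tm z f.1 k
  map_one' := by
    rw [tsum_eq_single 0]
    · simp [tm]
    · intro k hk
      simp [tm, coeff_one, hk]
  map_mul' := by
    intro f g
    rw [tsum_mul_tsum_eq_tsum_sum_antidiagonal_of_summable_norm f.2 g.2]
    exact tsum_congr fun k => tm_mul z f.1 g.1 k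
  map_zero' := by
    simp [tm]
  map_add' := by
    intro f g
    rw [← Summable.tsum_add f.2.of_norm g.2.of_norm]
    exact tsum_congr fun k => tm_add z f.1 g.1 k

theorem evz_poly (z : ℂ) (p : Polynomial ℚ) (h : (p : PowerSeries ℚ) ∈ SS z) :
    evz z ⟨p, h⟩ = p.eval₂ (algebraMap ℚ ℂ) z := by
  show ∑' k, tm z (p : PowerSeries ℚ) k = _
  rw [Polynomial.eval₂_eq_sum, Polynomial.sum, tsum_eq_sum (s := p.support)]
  · refine Finset.sum_congr rfl fun k _ => ?_
    simp [tm]
  · intro k hk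
    simp only [tm, Polynomial.coeff_coe]
    rw [Polynomial.notMem_support_iff.1 hk]
    simp

theorem mem_SS_of_bdd {f : PowerSeries ℚ} {B : ℚ} (hB : ∀ k, |coeff k f| ≤ B) {z : ℂ}
    (hz : ‖z‖ < 1) : f ∈ SS z := by
  refine Summable.of_nonneg_of_le (fun _ => norm_nonneg _) (fun k => ?_)
    ((summable_geometric_of_lt_one (norm_nonneg z) hz).mul_left (B : ℝ))
  rw [tm, norm_mul, norm_pow]
  refine mul_le_mul_of_nonneg_right ?_ (by positivity)
  have h1 : ‖((coeff k f : ℚ) : ℂ)‖ = ((|coeff k f| : ℚ) : ℝ) := by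
    rw [Complex.norm_ratCast, Rat.cast_abs]
  rw [h1]
  exact_mod_cast hB k

/-- roots of monic polynomials with coefficients bounded by `K` -/
theorem root_bdd {m : ℕ} {x : ℂ} {c : ℕ → ℂ} {K : ℝ} (hK : 0 ≤ K) (hc : ∀ j < m, ‖c j‖ ≤ K)
    (hx : x ^ m + ∑ j ∈ range m, c j * x ^ j = 0) : ‖x‖ ≤ 1 + m * K := by
  by_contra hcon
  push Not at hcon
  have hmK : 0 ≤ m * K := by positivity
  have h1 : 1 < ‖x‖ := by linarith
  rcases Nat.eq_zero_or_pos m with rfl | hm
  · simp at hx
  have h2 : ‖x‖ ^ m ≤ m * K * ‖x‖ ^ (m - 1) := by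
    have e : x ^ m = -∑ j ∈ range m, c j * x ^ j := by linear_combination hx
    calc ‖x‖ ^ m = ‖x ^ m‖ := (norm_pow _ _).symm
      _ = ‖∑ j ∈ range m, c j * x ^ j‖ := by rw [e, norm_neg]
      _ ≤ ∑ j ∈ range m, ‖c j * x ^ j‖ := norm_sum_le _ _
      _ ≤ ∑ j ∈ range m, K * ‖x‖ ^ (m - 1) := by
          refine Finset.sum_le_sum fun j hj => ?_
          rw [mem_range] at hj
          rw [norm_mul, norm_pow]
          exact mul_le_mul (hc j hj) (pow_le_pow_right₀ h1.le (by omega)) (by positivity) hK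
      _ = m * K * ‖x‖ ^ (m - 1) := by
          rw [Finset.sum_const, card_range, nsmul_eq_mul]; ring
  have h3 : ‖x‖ ^ m = ‖x‖ * ‖x‖ ^ (m - 1) := by
    rw [← pow_succ']
    congr 1
    omega
  rw [h3] at h2
  have h4 : 0 < ‖x‖ ^ (m - 1) := by positivity
  have h5 := le_of_mul_le_mul_right h2 h4
  linarith

/-- the norm of a value of a polynomial in the unit disc -/
theorem poly_bdd (p : Polynomial ℚ) : ∃ K : ℝ, 0 ≤ K ∧ ∀ z : ℂ, ‖z‖ < 1 →
    ‖p.eval₂ (algebraMap ℚ ℂ) z‖ ≤ K := by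
  refine ⟨∑ k ∈ p.support, ‖(algebraMap ℚ ℂ) (p.coeff k)‖, by positivity, fun z hz => ?_⟩
  rw [Polynomial.eval₂_eq_sum, Polynomial.sum]
  refine (norm_sum_le _ _).trans (Finset.sum_le_sum fun k _ => ?_)
  rw [norm_mul, norm_pow]
  exact mul_le_of_le_one_right (norm_nonneg _) (pow_le_one₀ (norm_nonneg _) hz.le)

/-- a power series with bounded coefficients which is integral over `ℚ[X]` is bounded in the
unit disc -/
theorem integral_bdd {g : PowerSeries ℚ} {B : ℚ} (hB : ∀ k, |coeff k g| ≤ B)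
    (hg : IsIntegral (Polynomial ℚ) g) :
    ∃ R : ℝ, 0 ≤ R ∧ ∀ z : ℂ, ∀ hz : ‖z‖ < 1, ‖evz z ⟨g, mem_SS_of_bdd hB hz⟩‖ ≤ R := by
  obtain ⟨Q, hQ, hQ0⟩ := hg
  have hal : ∀ p : Polynomial ℚ, algebraMap (Polynomial ℚ) (PowerSeries ℚ) p = (p : PowerSeries ℚ) :=
    fun p => rfl
  rw [Polynomial.eval₂_eq_sum_range, Finset.sum_range_succ] at hQ0
  rw [hQ.coeff_natDegree, map_one, one_mul] at hQ0
  choose K hK0 hK using fun p : Polynomial ℚ => poly_bdd p
  set m := Q.natDegree
  set KK : ℝ := ∑ j ∈ range m, K (Q.coeff j)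
  have hKK : 0 ≤ KK := Finset.sum_nonneg fun j _ => hK0 _
  refine ⟨1 + m * KK, by positivity, fun z hz => ?_⟩
  refine root_bdd (c := fun j => (Q.coeff j).eval₂ (algebraMap ℚ ℂ) z) hKK ?_ ?_
  · intro j hj
    refine (hK _ z hz).trans ?_
    exact Finset.single_le_sum (f := fun j => K (Q.coeff j)) (fun j _ => hK0 _) (mem_range.2 hj)
  · have hp : ∀ p : Polynomial ℚ, (p : PowerSeries ℚ) ∈ SS z := fun p => tm_summable_poly z p
    have h1 : (⟨g, mem_SS_of_bdd hB hz⟩ : SS z) ^ m +
        ∑ j ∈ range m, (⟨(Q.coeff j : PowerSeries ℚ), hp _⟩ : SS z) *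
          (⟨g, mem_SS_of_bdd hB hz⟩ : SS z) ^ j = 0 := by
      apply Subtype.ext
      push_cast
      rw [← hQ0, add_comm]
      rfl
    have h2 := congrArg (evz z) h1
    rw [map_add, map_pow, map_sum, map_zero] at h2
    simp only [map_mul, map_pow, evz_poly] at h2
    exact h2

end Pool.Agent.H91.DG
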