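import Pool.Agent.H91.DG.Ev

/-!
# Fatou's theorem: an algebraic power series with bounded coefficients with bounded denominators
is rational
-/

namespace Pool.Agent.H91.DG

open PowerSeries Finset ComplexConjugate

theorem char_sum {N : ℕ} (hN : N ≠ 0) {ζ : ℂ} (hζ : IsPrimitiveRoot ζ N) (k l : ℕ) (hk : k < N)
    (hl : l < N) : ∑ t ∈ range N, (ζ ^ k * conj ζ ^ l) ^ t = if k = l then (N : ℂ) else 0 := by
  have h0 : conj ζ * ζ = 1 := by
    have h1 : ‖ζ‖ = 1 := by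
      exact hζ.norm'_eq_one hN
    rw [mul_comm, Complex.mul_conj', h1]
    simp
  split_ifs with h
  · subst h
    rw [← mul_pow, mul_comm ζ, h0]
    simp
  · have h1 : ζ ^ k * conj ζ ^ l ≠ 1 := by
      intro h2
      apply h
      apply hζ.pow_inj hk hl
      calc ζ ^ k = ζ ^ k * (conj ζ * ζ) ^ l := by rw [h0, one_pow, mul_one]
        _ = (ζ ^ k * conj ζ ^ l) * ζ ^ l := by rw [mul_pow]; ring
        _ = ζ ^ l := by rw [h2, one_mul]
    have h3 : (ζ ^ k * conj ζ ^ l) ^ N = 1 := by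
      rw [mul_pow, ← pow_mul, ← pow_mul, mul_comm k, mul_comm l, pow_mul, pow_mul, ← map_pow,
        hζ.pow_eq_one]
      simp
    rw [geom_sum_eq h1, h3, sub_self, zero_div]

theorem parseval {N : ℕ} (hN : N ≠ 0) {ζ : ℂ} (hζ : IsPrimitiveRoot ζ N) (c : ℕ → ℂ) :
    ∑ t ∈ range N, ‖∑ k ∈ range N, c k * (ζ ^ t) ^ k‖ ^ 2 = N * ∑ k ∈ range N, ‖c k‖ ^ 2 := by
  have key : ((∑ t ∈ range N, ‖∑ k ∈ range N, c k * (ζ ^ t) ^ k‖ ^ 2 : ℝ) : ℂ) =
      ((N * ∑ k ∈ range N, ‖c k‖ ^ 2 : ℝ) : ℂ) := by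
    push_cast
    calc ∑ t ∈ range N, (‖∑ k ∈ range N, c k * (ζ ^ t) ^ k‖ : ℂ) ^ 2
        = ∑ t ∈ range N, ∑ k ∈ range N, ∑ l ∈ range N,
            (c k * conj (c l)) * (ζ ^ k * conj ζ ^ l) ^ t := by
          refine Finset.sum_congr rfl fun t _ => ?_
          rw [← Complex.mul_conj', map_sum, Finset.sum_mul_sum]
          refine Finset.sum_congr rfl fun k _ => Finset.sum_congr rfl fun l _ => ?_
          rw [map_mul, map_pow, map_pow, mul_pow, ← pow_mul, ← pow_mul, ← pow_mul, ← pow_mul,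
            mul_comm t k, mul_comm t l]
          ring
      _ = ∑ k ∈ range N, ∑ l ∈ range N, (c k * conj (c l)) *
            ∑ t ∈ range N, (ζ ^ k * conj ζ ^ l) ^ t := by
          rw [Finset.sum_comm]
          refine Finset.sum_congr rfl fun k _ => ?_
          rw [Finset.sum_comm]
          refine Finset.sum_congr rfl fun l _ => ?_
          rw [Finset.mul_sum]
      _ = ∑ k ∈ range N, ∑ l ∈ range N, (c k * conj (c l)) * (if k = l then (N : ℂ) else 0) := by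
          refine Finset.sum_congr rfl fun k hk => Finset.sum_congr rfl fun l hl => ?_
          rw [char_sum hN hζ k l (mem_range.1 hk) (mem_range.1 hl)]
      _ = ∑ k ∈ range N, N * (‖c k‖ : ℂ) ^ 2 := by
          refine Finset.sum_congr rfl fun k hk => ?_
          simp only [mul_ite, mul_zero]
          rw [Finset.sum_ite_eq, if_pos hk, Complex.mul_conj']
          ring
      _ = N * ∑ k ∈ range N, (‖c k‖ : ℂ) ^ 2 := by rw [Finset.mul_sum]
  exact_mod_cast key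

theorem sq_sum_bdd {g : PowerSeries ℚ} {B : ℚ} (hB : ∀ k, |coeff k g| ≤ B) {R : ℝ} (hR0 : 0 ≤ R)
    (hR : ∀ z : ℂ, ∀ hz : ‖z‖ < 1, ‖evz z ⟨g, mem_SS_of_bdd hB hz⟩‖ ≤ R) (K : ℕ) :
    ∑ k ∈ range K, ((coeff k g : ℚ) : ℝ) ^ 2 ≤ (R + 1) ^ 2 := by
  have hB0 : 0 ≤ B := (abs_nonneg _).trans (hB 0)
  -- for every `ρ < 1`
  have h1 : ∀ ρ : ℝ, 0 ≤ ρ → ρ < 1 →
      ∑ k ∈ range K, (((coeff k g : ℚ) : ℝ) * ρ ^ k) ^ 2 ≤ (R + 1) ^ 2 := by
    intro ρ hρ0 hρ1
    -- choose `N`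
    have htail : Filter.Tendsto (fun n : ℕ => (B : ℝ) * ρ ^ n * (1 - ρ)⁻¹) Filter.atTop
        (nhds ((B : ℝ) * 0 * (1 - ρ)⁻¹)) :=
      ((tendsto_pow_atTop_nhds_zero_of_lt_one hρ0 hρ1).const_mul _).mul_const _
    rw [mul_zero, zero_mul] at htail
    obtain ⟨n, hn⟩ := ((htail.eventually (gt_mem_nhds one_pos)).and
      (Filter.eventually_ge_atTop (K + 1))).exists
    obtain ⟨hn1, hnK⟩ := hn
    have hn0 : n ≠ 0 := by omega
    obtain ⟨ζ, hζ⟩ : ∃ ζ : ℂ, IsPrimitiveRoot ζ n := ⟨_, Complex.isPrimitiveRoot_exp n hn0⟩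
    have hζ1 : ‖ζ‖ = 1 := hζ.norm'_eq_one hn0
    have h2 : ∀ z : ℂ, ‖z‖ = ρ → ‖∑ k ∈ range n, tm z g k‖ ≤ R + 1 := by
      intro z hz
      have hz1 : ‖z‖ < 1 := by rw [hz]; exact hρ1
      have hs : Summable fun k => tm z g k :=
        Summable.of_norm (f := fun k => tm z g k) (mem_SS_of_bdd hB hz1)
      have e1 : evz z ⟨g, mem_SS_of_bdd hB hz1⟩ = ∑' k, tm z g k := rfl
      have e2 : ∑ k ∈ range n, tm z g k = (∑' k, tm z g k) - ∑' k, tm z g (k + n) := by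
        rw [← Summable.sum_add_tsum_nat_add n hs]; ring
      have e3 : ‖∑' k, tm z g (k + n)‖ ≤ 1 := by
        have hb : ∀ k, ‖tm z g (k + n)‖ ≤ (B : ℝ) * ρ ^ n * ρ ^ k := by
          intro k
          rw [tm, norm_mul, norm_pow, hz, Complex.norm_ratCast, ← Rat.cast_abs, pow_add]
          have : ((|coeff (k + n) g| : ℚ) : ℝ) ≤ B := by exact_mod_cast hB _
          calc ((|coeff (k + n) g| : ℚ) : ℝ) * (ρ ^ k * ρ ^ n)
              ≤ B * (ρ ^ k * ρ ^ n) := mul_le_mul_of_nonneg_right this (by positivity)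
            _ = (B : ℝ) * ρ ^ n * ρ ^ k := by ring
        have hg' : HasSum (fun k => (B : ℝ) * ρ ^ n * ρ ^ k) ((B : ℝ) * ρ ^ n * (1 - ρ)⁻¹) :=
          (hasSum_geometric_of_lt_one hρ0 hρ1).mul_left _
        exact (tsum_of_norm_bounded hg' hb).trans hn1.le
      rw [e2, ← e1]
      exact (norm_sub_le _ _).trans (add_le_add (hR z hz1) e3)
    have h3 := parseval hn0 hζ (fun k => ((coeff k g : ℚ) : ℂ) * (ρ : ℂ) ^ k)
    have h4 : ∑ t ∈ range n, ‖∑ k ∈ range n, ((coeff k g : ℚ) : ℂ) * (ρ : ℂ) ^ k *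
        (ζ ^ t) ^ k‖ ^ 2 ≤ n * (R + 1) ^ 2 := by
      calc ∑ t ∈ range n, ‖∑ k ∈ range n, ((coeff k g : ℚ) : ℂ) * (ρ : ℂ) ^ k *
            (ζ ^ t) ^ k‖ ^ 2 ≤ ∑ t ∈ range n, (R + 1) ^ 2 := by
            refine Finset.sum_le_sum fun t _ => ?_
            have h5 := h2 (ρ * ζ ^ t) (by
              rw [norm_mul, norm_pow, hζ1, one_pow, mul_one, Complex.norm_real, Real.norm_eq_abs,
                abs_of_nonneg hρ0])
            have h6 : ∑ k ∈ range n, tm (ρ * ζ ^ t) g k = ∑ k ∈ range n,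
                ((coeff k g : ℚ) : ℂ) * (ρ : ℂ) ^ k * (ζ ^ t) ^ k := by
              refine Finset.sum_congr rfl fun k _ => ?_
              rw [tm, mul_pow]; ring
            rw [h6] at h5
            exact pow_le_pow_left₀ (norm_nonneg _) h5 2
        _ = n * (R + 1) ^ 2 := by rw [Finset.sum_const, card_range, nsmul_eq_mul]
    rw [h3] at h4
    have hnpos : (0 : ℝ) < n := by exact_mod_cast Nat.pos_of_ne_zero hn0
    have h5 := le_of_mul_le_mul_left h4 hnpos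
    refine le_trans ?_ h5
    have h6 : ∀ k, ‖((coeff k g : ℚ) : ℂ) * (ρ : ℂ) ^ k‖ ^ 2 = (((coeff k g : ℚ) : ℝ) * ρ ^ k) ^ 2 := by
      intro k
      have : ((coeff k g : ℚ) : ℂ) * (ρ : ℂ) ^ k = ((((coeff k g : ℚ) : ℝ) * ρ ^ k : ℝ) : ℂ) := by
        push_cast; ring
      rw [this, Complex.norm_real, Real.norm_eq_abs, sq_abs]
    simp only [h6]
    exact Finset.sum_le_sum_of_subset_of_nonneg (range_subset_range.2 (by omega))
      fun k _ _ => sq_nonneg _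
  -- let `ρ → 1`
  have h7 : Filter.Tendsto (fun ρ : ℝ => ∑ k ∈ range K, (((coeff k g : ℚ) : ℝ) * ρ ^ k) ^ 2)
      (nhdsWithin 1 (Set.Iio 1)) (nhds (∑ k ∈ range K, (((coeff k g : ℚ) : ℝ) * 1 ^ k) ^ 2)) := by
    apply Filter.Tendsto.mono_left _ nhdsWithin_le_nhds
    have : Continuous (fun ρ : ℝ => ∑ k ∈ range K, (((coeff k g : ℚ) : ℝ) * ρ ^ k) ^ 2) := by
      fun_prop
    exact this.tendsto 1
  simp only [one_pow, mul_one] at h7
  refine le_of_tendsto h7 ?_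
  have h8 : ∀ᶠ ρ : ℝ in nhdsWithin 1 (Set.Iio 1), 0 < ρ :=
    Filter.Eventually.filter_mono nhdsWithin_le_nhds (lt_mem_nhds one_pos)
  filter_upwards [h8, self_mem_nhdsWithin] with ρ h9 h10
  exact h1 ρ h9.le h10

/-- bounded denominators, bounded in the unit disc: a polynomial -/
theorem poly_of_bdd {g : PowerSeries ℚ} {B : ℚ} (hB : ∀ k, |coeff k g| ≤ B) {M : ℕ} (hM : M ≠ 0)
    (hint : ∀ k, ∃ a : ℤ, (M : ℚ) * coeff k g = a) {R : ℝ} (hR0 : 0 ≤ R)
    (hR : ∀ z : ℂ, ∀ hz : ‖z‖ < 1, ‖evz z ⟨g, mem_SS_of_bdd hB hz⟩‖ ≤ R) :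
    ∃ p : Polynomial ℚ, (p : PowerSeries ℚ) = g := by
  have hMR : (0 : ℝ) < M := by exact_mod_cast Nat.pos_of_ne_zero hM
  have hfin : {k | coeff k g ≠ 0}.Finite := by
    by_contra hinf
    obtain ⟨s, hs, hcard⟩ := Set.Infinite.exists_subset_card_eq hinf (⌊(M * (R + 1)) ^ 2⌋₊ + 1)
    obtain ⟨K, hK⟩ : ∃ K, s ⊆ range K := ⟨s.sup id + 1, fun k hk => by
      rw [mem_range]
      exact Nat.lt_succ_of_le (Finset.le_sup (f := id) hk)⟩
    have h1 := sq_sum_bdd hB hR0 hR K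
    have h2 : (s.card : ℝ) ≤ (M * (R + 1)) ^ 2 := by
      calc (s.card : ℝ) = ∑ k ∈ s, (1 : ℝ) := by simp
        _ ≤ ∑ k ∈ s, (M : ℝ) ^ 2 * ((coeff k g : ℚ) : ℝ) ^ 2 := by
            refine Finset.sum_le_sum fun k hk => ?_
            obtain ⟨a, ha⟩ := hint k
            have hk0 : coeff k g ≠ 0 := hs hk
            have ha0 : a ≠ 0 := by
              rintro rfl
              have : (M : ℚ) * coeff k g = 0 := by rw [ha]; simp
              rcases mul_eq_zero.1 this with h | h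
              · exact hM (by exact_mod_cast h)
              · exact hk0 h
            have e : (M : ℝ) * ((coeff k g : ℚ) : ℝ) = a := by exact_mod_cast ha
            rw [← mul_pow, e]
            have h3 : (1 : ℤ) ≤ a ^ 2 := by
              have := sq_pos_of_ne_zero ha0
              omega
            exact_mod_cast h3
        _ ≤ ∑ k ∈ range K, (M : ℝ) ^ 2 * ((coeff k g : ℚ) : ℝ) ^ 2 :=
            Finset.sum_le_sum_of_subset_of_nonneg hK fun k _ _ => by positivity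
        _ = (M : ℝ) ^ 2 * ∑ k ∈ range K, ((coeff k g : ℚ) : ℝ) ^ 2 := by rw [Finset.mul_sum]
        _ ≤ (M : ℝ) ^ 2 * (R + 1) ^ 2 := mul_le_mul_of_nonneg_left h1 (by positivity)
        _ = (M * (R + 1)) ^ 2 := by ring
    rw [hcard] at h2
    have h3 := Nat.lt_floor_add_one ((M * (R + 1)) ^ 2 : ℝ)
    push_cast at h2
    linarith
  obtain ⟨K, hK⟩ := hfin.bddAbove
  refine ⟨trunc (K + 1) g, ?_⟩
  ext k
  rw [Polynomial.coeff_coe, coeff_trunc]
  split_ifs with h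
  · rfl
  · by_contra h0
    exact h (Nat.lt_succ_of_le (hK (Ne.symm h0)))

end Pool.Agent.H91.DG
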