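import Pool.Agent.H91.DG.Main

/-!
# Final statements
-/

namespace Pool.Agent.H91.DG

open Finset

theorem window (D A C K : ℕ) : ∃ B : ℕ, ∀ b : ℕ, B ≤ b → ∀ r : ℝ, 0 ≤ r → r < 1 →
    Irrational r → (∃ P : Polynomial ℤ, Irreducible P ∧ P.natDegree ≤ D ∧
      (∀ i, |P.coeff i| ≤ (b : ℤ) ^ A) ∧ Polynomial.aeval r P = 0) →
    C < ((Ico K B).image (dig b r)).card := by
  classical
  obtain ⟨B, hB⟩ := digits_unbounded D A (C + K)
  refine ⟨B, fun b hb r h0 h1 hirr hP => ?_⟩
  have h2 := hB b hb r h0 h1 hirr hP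
  have h3 : (range B).image (dig b r) ⊆ (range K).image (dig b r) ∪ (Ico K B).image (dig b r) := by
    rw [← Finset.image_union]
    apply Finset.image_subset_image
    intro k hk
    rw [mem_range] at hk
    rw [mem_union, mem_range, mem_Ico]
    omega
  have h4 := (Finset.card_le_card h3).trans (Finset.card_union_le _ _)
  have h5 : ((range K).image (dig b r)).card ≤ K := Finset.card_image_le.trans (by simp)
  omega

theorem exists_irr_factor {r : ℝ} {p : Polynomial ℤ} (hp : p ≠ 0) (hpr : Polynomial.aeval r p = 0) :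
    ∃ P : Polynomial ℤ, Irreducible P ∧ Polynomial.aeval r P = 0 ∧ P ∣ p := by
  obtain ⟨f, hf, hfp⟩ := UniqueFactorizationMonoid.exists_prime_factors p hp
  obtain ⟨u, hu⟩ := hfp
  have h2 : (f.map (Polynomial.aeval r)).prod * Polynomial.aeval r (u : Polynomial ℤ) = 0 := by
    rw [← map_multiset_prod, ← map_mul, hu, hpr]
  have h3 : Polynomial.aeval r (u : Polynomial ℤ) ≠ 0 := by
    have : IsUnit (Polynomial.aeval r (u : Polynomial ℤ)) := u.isUnit.map _
    exact this.ne_zero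
  have h4 := (mul_eq_zero.1 h2).resolve_right h3
  rw [Multiset.prod_eq_zero_iff, Multiset.mem_map] at h4
  obtain ⟨P, hPf, hP0⟩ := h4
  refine ⟨P, (hf P hPf).irreducible, hP0, ?_⟩
  rw [← hu]
  exact (Multiset.dvd_prod hPf).mul_right _

/-- coefficients of factors -/
theorem factor_bound {P Q : Polynomial ℤ} (hP : P ≠ 0) (h : Q ∣ P) {D : ℕ} (hD : P.natDegree ≤ D)
    {H : ℝ} (hH : ∀ i, |(P.coeff i : ℝ)| ≤ H) (i : ℕ) :
    |(Q.coeff i : ℝ)| ≤ 2 ^ D * ((D + 1) * H) := by
  obtain ⟨R, rfl⟩ := h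
  have hQ0 : Q ≠ 0 := left_ne_zero_of_mul hP
  have hR0 : R ≠ 0 := right_ne_zero_of_mul hP
  have hH0 : 0 ≤ H := (abs_nonneg _).trans (hH 0)
  have h1 := Polynomial.norm_coeff_le_choose_mul_mahlerMeasure_of_one_le_mahlerMeasure i
    (Q.map (Int.castRingHom ℂ)) (R.map (Int.castRingHom ℂ))
    (Polynomial.one_le_mahlerMeasure_of_ne_zero hR0)
  rw [← Polynomial.map_mul, Polynomial.coeff_map] at h1
  have h2 : ((Q * R).map (Int.castRingHom ℂ)).mahlerMeasure ≤ (D + 1) * H := by
    refine (Polynomial.mahlerMeasure_le_sum_norm_coeff _).trans ?_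
    rw [Polynomial.sum_over_range' _ (fun n => norm_zero) (D + 1)]
    · calc ∑ a ∈ range (D + 1), ‖((Q * R).map (Int.castRingHom ℂ)).coeff a‖
          ≤ ∑ a ∈ range (D + 1), H := by
            refine Finset.sum_le_sum fun a _ => ?_
            rw [Polynomial.coeff_map, eq_intCast, Complex.norm_intCast]
            exact hH a
        _ = (D + 1) * H := by
            rw [Finset.sum_const, card_range, nsmul_eq_mul]; push_cast; ring
    · have := Polynomial.natDegree_map_le (f := Int.castRingHom ℂ) (p := Q * R)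
      omega
  have h3 : (((Q.map (Int.castRingHom ℂ)).natDegree.choose i : ℕ) : ℝ) ≤ 2 ^ D := by
    have h4 : (Q.map (Int.castRingHom ℂ)).natDegree ≤ D := by
      have h5 : (Q * R).natDegree = Q.natDegree + R.natDegree := Polynomial.natDegree_mul hQ0 hR0
      have := Polynomial.natDegree_map_le (f := Int.castRingHom ℂ) (p := Q)
      omega
    have h5 : (Q.map (Int.castRingHom ℂ)).natDegree.choose i ≤ 2 ^ D :=
      (Nat.choose_le_two_pow _ _).trans (Nat.pow_le_pow_right (by norm_num) h4)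
    exact_mod_cast h5
  have h6 : ‖(Int.castRingHom ℂ) (Q.coeff i)‖ = |(Q.coeff i : ℝ)| := by
    rw [eq_intCast, Complex.norm_intCast]
  rw [h6] at h1
  exact h1.trans (mul_le_mul h3 h2 (Polynomial.mahlerMeasure_nonneg _) (by positivity))

/-- **Final form**: algebraic irrational numbers of degree at most `D` and height at most `b ^ A`
have more than `C` distinct digits in base `b`, among the digits number `K + 1, ..., B`, as soon
as `b ≥ B = B(D, A, C, K)`. -/
theorem final (D A C K : ℕ) : ∃ B : ℕ, ∀ b : ℕ, B ≤ b → ∀ r : ℝ, 0 ≤ r → r < 1 →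
    Irrational r → (∃ P : Polynomial ℤ, P ≠ 0 ∧ P.natDegree ≤ D ∧
      (∀ i, |P.coeff i| ≤ (b : ℤ) ^ A) ∧ Polynomial.aeval r P = 0) →
    C < ((Ico K B).image (dig b r)).card := by
  classical
  obtain ⟨B, hB⟩ := window D (A + 1) C K
  refine ⟨max B (2 ^ D * (D + 1)), fun b hb r h0 h1 hirr hP => ?_⟩
  have hbB : B ≤ b := (le_max_left _ _).trans hb
  have hbD : 2 ^ D * (D + 1) ≤ b := (le_max_right _ _).trans hb
  obtain ⟨P, hP0, hPD, hPc, hPr⟩ := hP
  obtain ⟨Q, hQ, hQr, hQP⟩ := exists_irr_factor hP0 hPr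
  have hQD : Q.natDegree ≤ D := (Polynomial.natDegree_le_of_dvd hQP hP0).trans hPD
  have h2 := hB b hbB r h0 h1 hirr ⟨Q, hQ, hQD, fun i => ?_, hQr⟩
  · refine h2.trans_le (Finset.card_le_card (Finset.image_subset_image ?_))
    exact Finset.Ico_subset_Ico_right (le_max_left _ _)
  · have h3 := factor_bound hP0 hQP hPD (H := (b : ℝ) ^ A) (fun i => by exact_mod_cast hPc i) i
    have h4 : (2 : ℝ) ^ D * ((D + 1) * (b : ℝ) ^ A) ≤ (b : ℝ) ^ (A + 1) := by
      have h5 : ((2 : ℝ) ^ D * (D + 1)) ≤ b := by exact_mod_cast hbD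
      calc (2 : ℝ) ^ D * ((D + 1) * (b : ℝ) ^ A) = ((2 : ℝ) ^ D * (D + 1)) * (b : ℝ) ^ A := by ring
        _ ≤ b * (b : ℝ) ^ A := mul_le_mul_of_nonneg_right h5 (by positivity)
        _ = (b : ℝ) ^ (A + 1) := by rw [pow_succ]; ring
    have h5 := h3.trans h4
    exact_mod_cast h5

end Pool.Agent.H91.DG
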