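import Pool.Agent.H91.DG.Sys

/-!
# The field of hyperrationals
-/

namespace Pool.Agent.H91.DG

open Filter Finset
open scoped RatFunc

/-- a nonprincipal ultrafilter -/
noncomputable abbrev UU : Ultrafilter ℕ := hyperfilter ℕ

/-- hyperrationals -/
abbrev HQ : Type := Germ (UU : Filter ℕ) ℚ

/-- germ of a sequence, as a ring homomorphism -/
noncomputable def gm : (ℕ → ℚ) →+* HQ := Germ.coeRingHom _

theorem gm_eq {x y : ℕ → ℚ} : gm x = gm y ↔ ∀ᶠ n in UU, x n = y n := Germ.coe_eq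

theorem gm_surj (x : HQ) : ∃ u, gm u = x := by
  induction x using Germ.inductionOn with
  | _ f => exact ⟨f, rfl⟩

theorem gm_const (q : ℚ) : gm (fun _ => q) = (q : HQ) := by
  have h : (gm.comp (Pi.constRingHom ℕ ℚ)) q = (q : HQ) := eq_ratCast _ q
  exact h

theorem gm_lt {x y : ℕ → ℚ} : gm x < gm y ↔ ∀ᶠ n in UU, x n < y n := Germ.coe_lt

theorem gm_le {x y : ℕ → ℚ} : gm x ≤ gm y ↔ ∀ᶠ n in UU, x n ≤ y n := Germ.coe_le

theorem gm_abs (x : ℕ → ℚ) : |gm x| = gm (fun n => |x n|) := by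
  rw [Germ.abs_def]; rfl

/-- hyperintegers up to standard denominators -/
noncomputable def ZZ : Subring HQ where
  carrier := {x | ∃ M : ℕ, M ≠ 0 ∧ ∃ u : ℕ → ℤ, (M : HQ) * x = gm (fun n => (u n : ℚ))}
  mul_mem' := by
    rintro x y ⟨M, hM, u, hu⟩ ⟨M', hM', u', hu'⟩
    refine ⟨M * M', mul_ne_zero hM hM', fun n => u n * u' n, ?_⟩
    have e : (fun n => ((u n * u' n : ℤ) : ℚ)) = (fun n => (u n : ℚ)) * fun n => (u' n : ℚ) := by
      funext n; push_cast; rfl
    rw [e, map_mul, ← hu, ← hu']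
    push_cast; ring
  one_mem' := ⟨1, one_ne_zero, fun _ => 1, by
    have : (fun _ : ℕ => ((1 : ℤ) : ℚ)) = 1 := by funext n; simp
    rw [this, map_one]; simp⟩
  add_mem' := by
    rintro x y ⟨M, hM, u, hu⟩ ⟨M', hM', u', hu'⟩
    refine ⟨M * M', mul_ne_zero hM hM', fun n => M' * u n + M * u' n, ?_⟩
    have e : (fun n => ((M' * u n + M * u' n : ℤ) : ℚ)) =
        (M' : ℕ → ℚ) * (fun n => (u n : ℚ)) + (M : ℕ → ℚ) * fun n => (u' n : ℚ) := by
      funext n; push_cast; rfl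
    rw [e, map_add, map_mul, map_mul, ← hu, ← hu', map_natCast, map_natCast]
    push_cast; ring
  zero_mem' := ⟨1, one_ne_zero, fun _ => 0, by
    have : (fun _ : ℕ => ((0 : ℤ) : ℚ)) = 0 := by funext n; simp
    rw [this, map_zero]; simp⟩
  neg_mem' := by
    rintro x ⟨M, hM, u, hu⟩
    refine ⟨M, hM, fun n => - u n, ?_⟩
    have e : (fun n => ((- u n : ℤ) : ℚ)) = - (fun n => (u n : ℚ)) := by
      funext n; push_cast; rfl
    rw [e, map_neg, ← hu]
    ring

theorem int_mem_ZZ (u : ℕ → ℤ) : gm (fun n => (u n : ℚ)) ∈ ZZ :=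
  ⟨1, one_ne_zero, u, by push_cast; rw [one_mul]⟩

/-- the hyperrationals with an infinite base -/
theorem sys_HQ {bs : ℕ → ℕ} (hbs : ∀ n, n ≤ bs n) : Sys (gm fun n => (bs n : ℚ)) ZZ := by
  have hge : ∀ c : ℕ, ∀ᶠ n in UU, c ≤ bs n := fun c =>
    ((eventually_ge_atTop c).filter_mono Nat.hyperfilter_le_atTop).mono fun n hn => hn.trans (hbs n)
  have hinf : ∀ c : ℚ, (c : HQ) < gm fun n => (bs n : ℚ) := by
    intro c
    rw [← gm_const, gm_lt]
    filter_upwards [hge (⌈c⌉₊ + 1)] with n hn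
    have h1 : c ≤ (⌈c⌉₊ : ℚ) := Nat.le_ceil c
    have h2 : ((⌈c⌉₊ + 1 : ℕ) : ℚ) ≤ bs n := by exact_mod_cast hn
    push_cast at h2
    linarith
  refine ⟨hinf, ?_, ?_, ?_, ?_⟩
  · have := int_mem_ZZ (fun n => (bs n : ℤ))
    simpa using this
  · intro q
    refine ⟨q.den, q.den_nz, fun _ => q.num, ?_⟩
    rw [gm_const]
    have := Rat.mul_den_eq_num q
    have h2 : ((q * q.den : ℚ) : HQ) = ((q.num : ℚ) : HQ) := by rw [this]
    rw [← h2]
    push_cast
    ring
  · rintro x ⟨M, hM, u, hu⟩ ⟨c, hc⟩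
    rw [pow_zero, mul_one] at hc
    have hMpos : (0 : HQ) < M := by exact_mod_cast Nat.pos_of_ne_zero hM
    have h1 : |gm fun n => (u n : ℚ)| ≤ gm fun _ => (M * c : ℚ) := by
      rw [gm_const, ← hu, abs_mul, abs_of_pos hMpos]
      push_cast
      exact mul_le_mul_of_nonneg_left hc hMpos.le
    rw [gm_abs, gm_le] at h1
    have h2 : Set.Icc (-⌈(M * c : ℚ)⌉) ⌈(M * c : ℚ)⌉ ∈ UU.map u := by
      rw [Ultrafilter.mem_map]
      refine Filter.mem_of_superset h1 fun n hn => ?_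
      have hn' : |(u n : ℚ)| ≤ (M * c : ℚ) := hn
      have h3 : (|u n| : ℤ) ≤ ⌈(M * c : ℚ)⌉ := by
        have h4 : ((|u n| : ℤ) : ℚ) ≤ ⌈(M * c : ℚ)⌉ := by
          push_cast
          exact hn'.trans (Int.le_ceil _)
        exact_mod_cast h4
      exact Set.mem_Icc.2 (abs_le.1 h3)
    obtain ⟨a, -, ha⟩ := Ultrafilter.eq_pure_of_finite_mem (Set.finite_Icc _ _) h2
    have h5 : ∀ᶠ n in UU, u n = a := by
      have : ({a} : Set ℤ) ∈ UU.map u := by
        rw [ha]; exact Set.mem_singleton a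
      exact this
    refine ⟨a / M, ?_⟩
    have h6 : (M : HQ) * x = ((a : ℚ) : HQ) := by
      rw [hu, ← gm_const, gm_eq]
      filter_upwards [h5] with n hn
      rw [hn]
    have hM0 : (M : HQ) ≠ 0 := hMpos.ne'
    rw [Rat.cast_div, ← h6]
    push_cast
    field_simp
  · intro m x hx hxb
    obtain ⟨M, hM, u, hu⟩ := hx
    obtain ⟨c, hc⟩ := hxb
    set b : HQ := gm fun n => (bs n : ℚ) with hb
    have hMpos : (0 : HQ) < M := by exact_mod_cast Nat.pos_of_ne_zero hM
    have hM1 : (1 : HQ) ≤ M := by exact_mod_cast Nat.pos_of_ne_zero hM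
    have hM0 : (M : HQ) ≠ 0 := hMpos.ne'
    have hb1 : 1 < b := by simpa using hinf 1
    have hb0 : 0 < b := zero_lt_one.trans hb1
    set y : HQ := gm (fun n => ((u n / (bs n : ℤ) : ℤ) : ℚ)) / M with hy
    set v : HQ := gm (fun n => ((u n % (bs n : ℤ) : ℤ) : ℚ)) / M with hv
    have hxyv : x = b * y + v := by
      have h1 : (M : HQ) * x = b * gm (fun n => ((u n / (bs n : ℤ) : ℤ) : ℚ)) +
          gm (fun n => ((u n % (bs n : ℤ) : ℤ) : ℚ)) := by
        rw [hu, hb, ← map_mul, ← map_add]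
        congr 1
        funext n
        have := Int.mul_ediv_add_emod (u n) (bs n : ℤ)
        simp only [Pi.add_apply, Pi.mul_apply]
        exact_mod_cast this.symm
      rw [hy, hv]
      field_simp
      linear_combination h1
    have hvb : |v| ≤ b := by
      have h2 : |gm (fun n => ((u n % (bs n : ℤ) : ℤ) : ℚ))| ≤ b := by
        rw [gm_abs, hb, gm_le]
        filter_upwards [hge 1] with n hn
        have h3 : (0 : ℤ) < bs n := by exact_mod_cast hn
        have h4 := Int.emod_nonneg (u n) h3.ne'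
        have h5 := Int.emod_lt_of_pos (u n) h3
        rw [abs_of_nonneg (by exact_mod_cast h4)]
        exact_mod_cast h5.le
      rw [hv, abs_div, abs_of_pos hMpos]
      exact (div_le_self (abs_nonneg _) hM1).trans h2
    refine ⟨y, ⟨M, hM, fun n => u n / (bs n : ℤ), by rw [hy]; field_simp⟩, v,
      ⟨M, hM, fun n => u n % (bs n : ℤ), by rw [hv]; field_simp⟩, ?_, ⟨1, by simpa using hvb⟩, hxyv⟩
    refine ⟨c + 1, ?_⟩
    have h6 : b * |y| ≤ b * ((c + 1 : ℚ) * b ^ m) := by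
      calc b * |y| = |x - v| := by rw [hxyv, add_sub_cancel_right, abs_mul, abs_of_pos hb0]
        _ ≤ |x| + |v| := abs_sub _ _
        _ ≤ c * b ^ (m + 1) + b := add_le_add hc hvb
        _ ≤ c * b ^ (m + 1) + b * b ^ m := by
            have : 1 ≤ b ^ m := one_le_pow₀ hb1.le
            nlinarith
        _ = b * ((c + 1 : ℚ) * b ^ m) := by push_cast; ring
    exact le_of_mul_le_mul_left h6 hb0

section alg

variable {F : Type*} [Field F] [LinearOrder F] [IsStrictOrderedRing F] {b : F} {Z : Subring F}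

theorem Bd_eval' (hS : Sys b Z) (R : Polynomial ℚ) : Bd b 0 (R.eval₂ (Rat.castHom F) b⁻¹) := by
  rw [Polynomial.eval₂_eq_sum_range]
  refine Bd.sum _ _ fun k _ => ?_
  refine Bd.smul _ ?_
  refine ⟨1, ?_⟩
  have hb := hS.one_lt
  have h1 : 0 ≤ b⁻¹ := inv_nonneg.2 hS.pos.le
  have h2 : b⁻¹ ≤ 1 := inv_le_one_of_one_le₀ hb.le
  rw [abs_of_nonneg (pow_nonneg h1 _)]
  simpa using pow_le_one₀ h1 h2

theorem eval_inj (hS : Sys b Z) :
    Function.Injective (Polynomial.eval₂RingHom (Rat.castHom F) b⁻¹) := by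
  rw [injective_iff_map_eq_zero]
  intro p
  have hb0 : b ≠ 0 := hS.pos.ne'
  induction hn : p.natDegree using Nat.strong_induction_on generalizing p with
  | _ n ih =>
    intro hp
    rw [Polynomial.coe_eval₂RingHom] at hp
    have h1 := Polynomial.divX_mul_X_add p
    have h2 : (p.divX).eval₂ (Rat.castHom F) b⁻¹ * b⁻¹ + (p.coeff 0 : F) = 0 := by
      rw [← hp]
      conv_rhs => rw [← h1]
      simp [Polynomial.eval₂_add, Polynomial.eval₂_mul]
    have h3 : p.coeff 0 = 0 := by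
      by_contra hc
      obtain ⟨c, hc'⟩ := Bd_eval' hS p.divX
      rw [pow_zero, mul_one] at hc'
      have h4 : (p.divX).eval₂ (Rat.castHom F) b⁻¹ = -(b * (p.coeff 0 : F)) := by
        have hbw : b * b⁻¹ = 1 := mul_inv_cancel₀ hb0
        linear_combination b * h2 - (p.divX).eval₂ (Rat.castHom F) b⁻¹ * hbw
      rw [h4, abs_neg, abs_mul, abs_of_pos hS.pos, ← Rat.cast_abs] at hc'
      have h5 : 0 < |p.coeff 0| := abs_pos.2 hc
      have h6 := hS.inf (c / |p.coeff 0|)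
      rw [Rat.cast_div, div_lt_iff₀ (by exact_mod_cast h5)] at h6
      exact absurd h6 (not_lt.2 hc')
    rw [h3, Rat.cast_zero, add_zero] at h2
    have h7 : (p.divX).eval₂ (Rat.castHom F) b⁻¹ = 0 :=
      (mul_eq_zero.1 h2).resolve_right (inv_ne_zero hb0)
    by_cases hdeg : p.natDegree = 0
    · rw [Polynomial.eq_C_of_natDegree_eq_zero hdeg, h3, map_zero]
    · have h8 : p.divX = 0 := by
        refine ih p.divX.natDegree ?_ p.divX rfl h7
        rw [Polynomial.natDegree_divX_eq_natDegree_tsub_one]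
        omega
      rw [← h1, h8, h3]
      simp

/-- `F` as an algebra over `ℚ(X)`, `X ↦ b⁻¹` -/
@[reducible] noncomputable def algF (hS : Sys b Z) : Algebra (RatFunc ℚ) F :=
  RingHom.toAlgebra (IsFractionRing.lift (eval_inj hS))

theorem algF_X (hS : Sys b Z) :
    letI := algF hS
    algebraMap (RatFunc ℚ) F RatFunc.X = b⁻¹ := by
  letI := algF hS
  show IsFractionRing.lift (eval_inj hS) RatFunc.X = b⁻¹
  rw [← RatFunc.algebraMap_X, IsFractionRing.lift_algebraMap]
  simp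

end alg

end Pool.Agent.H91.DG
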