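import Pool.Agent.H91.DG.Sys

/-!
# Key lemma: integers are linearly disjoint from power series in `1/b`
-/

namespace Pool.Agent.H91.DG

open Finset PowerSeries HahnSeries
open scoped RatFunc LaurentSeries

/-- the Laurent series vanishes below degree `K` -/
def Van (K : ℤ) (A : LaurentSeries ℚ) : Prop := ∀ k < K, A.coeff k = 0

theorem Van.zero {K : ℤ} : Van K 0 := fun _ _ => by simp

theorem Van.add {K : ℤ} {A B : LaurentSeries ℚ} (hA : Van K A) (hB : Van K B) : Van K (A + B) :=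
  fun k hk => by rw [HahnSeries.coeff_add, hA k hk, hB k hk, add_zero]

theorem Van.sum {K : ℤ} {ι : Type*} (s : Finset ι) (A : ι → LaurentSeries ℚ)
    (h : ∀ i ∈ s, Van K (A i)) : Van K (∑ i ∈ s, A i) := by
  classical
  induction s using Finset.induction_on with
  | empty => simpa using Van.zero
  | insert a s ha ih =>
    rw [Finset.sum_insert ha]
    exact (h a (Finset.mem_insert_self _ _)).add
      (ih fun i hi => h i (Finset.mem_insert_of_mem hi))

theorem Van.mono {K K' : ℤ} (h : K' ≤ K) {A : LaurentSeries ℚ} (hA : Van K A) : Van K' A :=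
  fun k hk => hA k (by omega)

theorem Van.mul {K K' : ℤ} {A B : LaurentSeries ℚ} (hA : Van K A) (hB : Van K' B) :
    Van (K + K') (A * B) := by
  intro k hk
  rw [HahnSeries.coeff_mul]
  refine Finset.sum_eq_zero fun p hp => ?_
  rw [mem_addAntidiagonal] at hp
  obtain ⟨-, -, h3⟩ := hp
  by_cases h1 : p.1 < K
  · rw [hA _ h1, zero_mul]
  · rw [hB p.2 (by omega), mul_zero]

theorem exists_van (A : LaurentSeries ℚ) : ∃ K : ℤ, Van K A := by
  by_cases hA : A = 0
  · exact ⟨0, by rw [hA]; exact Van.zero⟩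
  · exact ⟨A.order, fun k hk => HahnSeries.coeff_eq_zero_of_lt_order hk⟩

theorem van_single (n : ℤ) (q : ℚ) : Van n (HahnSeries.single n q) := by
  intro k hk
  rw [HahnSeries.coeff_single_of_ne]
  omega

theorem eq_zero_of_van {A : LaurentSeries ℚ} (h : ∀ K : ℕ, Van K A) : A = 0 := by
  ext k
  rw [HahnSeries.coeff_zero]
  exact h (k.toNat + 1) k (by omega)

section

variable {F : Type*} [Field F] [LinearOrder F] [IsStrictOrderedRing F]

/-- truncated evaluation at `1 / b` -/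
noncomputable def Ev (b : F) (N : ℕ) (g : PowerSeries ℚ) : F :=
  ∑ k ∈ range (N + 1), ((coeff k g : ℚ) : F) * b⁻¹ ^ k

variable {b : F} {Z : Subring F} [Algebra (RatFunc ℚ) F]

/-- the Laurent series of `θ x` -/
noncomputable def LL (θ : F →ₗ[RatFunc ℚ] RatFunc ℚ) (x : F) : LaurentSeries ℚ :=
  algebraMap (RatFunc ℚ) (LaurentSeries ℚ) (θ x)

theorem LL_add (θ : F →ₗ[RatFunc ℚ] RatFunc ℚ) (x y : F) : LL θ (x + y) = LL θ x + LL θ y := by
  rw [LL, map_add, map_add]; rfl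

theorem LL_zero (θ : F →ₗ[RatFunc ℚ] RatFunc ℚ) : LL θ 0 = 0 := by
  rw [LL, map_zero, map_zero]

theorem LL_sum (θ : F →ₗ[RatFunc ℚ] RatFunc ℚ) {ι : Type*} (s : Finset ι) (x : ι → F) :
    LL θ (∑ i ∈ s, x i) = ∑ i ∈ s, LL θ (x i) := by
  rw [LL, map_sum, map_sum]; rfl

theorem LL_smul (θ : F →ₗ[RatFunc ℚ] RatFunc ℚ) (κ : RatFunc ℚ) (x : F) :
    LL θ (algebraMap (RatFunc ℚ) F κ * x) = algebraMap (RatFunc ℚ) (LaurentSeries ℚ) κ * LL θ x := by
  rw [LL, ← Algebra.smul_def, map_smul, smul_eq_mul, map_mul]; rfl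

theorem LL_rat (θ : F →ₗ[RatFunc ℚ] RatFunc ℚ) (q : ℚ) (x : F) :
    LL θ ((q : F) * x) = HahnSeries.single 0 q * LL θ x := by
  have h1 : (q : F) = algebraMap (RatFunc ℚ) F (q : RatFunc ℚ) := by rw [map_ratCast]
  have h2 : algebraMap (RatFunc ℚ) (LaurentSeries ℚ) (q : RatFunc ℚ) = HahnSeries.single 0 q := by
    rw [map_ratCast]
    exact (map_ratCast (HahnSeries.C : ℚ →+* LaurentSeries ℚ) q).symm
  rw [h1, LL_smul, h2]

theorem LL_inv (hX : algebraMap (RatFunc ℚ) F RatFunc.X = b⁻¹) (θ : F →ₗ[RatFunc ℚ] RatFunc ℚ)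
    (k : ℕ) (x : F) : LL θ (b⁻¹ ^ k * x) = HahnSeries.single (k : ℤ) 1 * LL θ x := by
  rw [← hX, ← map_pow, LL_smul, map_pow, RatFunc.coe_X, ← RatFunc.single_one_eq_pow]

theorem LL_pow (hX : algebraMap (RatFunc ℚ) F RatFunc.X = b⁻¹) (hb : b ≠ 0)
    (θ : F →ₗ[RatFunc ℚ] RatFunc ℚ) (k : ℕ) (x : F) :
    LL θ x = HahnSeries.single (k : ℤ) 1 * LL θ (b ^ k * x) := by
  rw [← LL_inv hX]
  congr 1
  rw [← mul_assoc, ← mul_pow, inv_mul_cancel₀ hb, one_pow, one_mul]

theorem LL_WW (hX : algebraMap (RatFunc ℚ) F RatFunc.X = b⁻¹) (hb : b ≠ 0)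
    (θ : F →ₗ[RatFunc ℚ] RatFunc ℚ) (s : Finset F) (J : ℕ) :
    ∃ K : ℤ, ∀ x ∈ WW b (Submodule.span ℚ (s : Set F)) J, Van K (LL θ x) := by
  classical
  choose K0 hK0 using fun x : F => exists_van (LL θ x)
  obtain ⟨K1, hK1⟩ : ∃ K1 : ℤ, ∀ x ∈ s, K1 ≤ K0 x := by
    obtain ⟨K1, hK1⟩ := (s.image K0).bddBelow
    exact ⟨K1, fun x hx => hK1 (by exact_mod_cast Finset.mem_image_of_mem _ hx)⟩
  have hsm : ∀ (K : ℤ) (q : ℚ) (x : F), Van K (LL θ x) → Van K (LL θ (q • x)) := by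
    intro K q x hx
    rw [Rat.smul_def, LL_rat]
    have := (van_single 0 q).mul hx
    rwa [zero_add] at this
  have hspan : ∀ x ∈ Submodule.span ℚ (s : Set F), Van K1 (LL θ x) := by
    intro x hx
    induction hx using Submodule.span_induction with
    | mem x hx => exact (hK0 x).mono (hK1 x (by exact_mod_cast hx))
    | zero => rw [LL_zero]; exact Van.zero
    | add x y _ _ hx hy => rw [LL_add]; exact hx.add hy
    | smul q x _ hx => exact hsm _ q x hx
  refine ⟨K1 - J, ?_⟩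
  induction J with
  | zero =>
    intro x hx
    simpa using hspan x hx
  | succ J ih =>
    intro x hx
    obtain ⟨y, hy, z, ⟨v, hv, rfl⟩, rfl⟩ := Submodule.mem_sup.1 hx
    rw [LL_add]
    refine ((ih y hy).mono (by push_cast; omega)).add ?_
    rw [LinearMap.mulLeft_apply]
    have h1 := LL_pow hX hb θ (J + 1) v
    have h2 : LL θ (b ^ (J + 1) * v) = HahnSeries.single (-((J + 1 : ℕ) : ℤ)) 1 * LL θ v := by
      rw [h1, ← mul_assoc, HahnSeries.single_mul_single, neg_add_cancel, one_mul]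
      exact (one_mul _).symm
    rw [h2]
    have h3 := (van_single (-((J + 1 : ℕ) : ℤ)) 1).mul (hspan v hv)
    exact h3.mono (by omega)

theorem LL_Ev (hX : algebraMap (RatFunc ℚ) F RatFunc.X = b⁻¹) (θ : F →ₗ[RatFunc ℚ] RatFunc ℚ)
    (n : F) (g : PowerSeries ℚ) (N : ℕ) :
    LL θ (n * Ev b N g) = LL θ n * ((trunc (N + 1) g : Polynomial ℚ) : PowerSeries ℚ) := by
  have h1 : ((trunc (N + 1) g : Polynomial ℚ) : PowerSeries ℚ) =
      ∑ k ∈ range (N + 1), PowerSeries.C (coeff k g) * PowerSeries.X ^ k := by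
    ext k
    rw [Polynomial.coeff_coe, coeff_trunc, map_sum]
    simp only [PowerSeries.coeff_C_mul, PowerSeries.coeff_X_pow, mul_ite, mul_one, mul_zero]
    rw [Finset.sum_ite_eq]
    simp only [mem_range]
  rw [h1, Ev, Finset.mul_sum, LL_sum, map_sum, Finset.mul_sum]
  refine Finset.sum_congr rfl fun k _ => ?_
  have h2 : n * (((coeff k g : ℚ) : F) * b⁻¹ ^ k) = ((coeff k g : ℚ) : F) * (b⁻¹ ^ k * n) := by
    ring
  rw [h2, LL_rat, LL_inv hX, map_mul, map_pow, HahnSeries.ofPowerSeries_C,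
    HahnSeries.ofPowerSeries_X]
  rw [RatFunc.single_one_eq_pow]
  show HahnSeries.C (coeff k g) * _ = _
  ring

theorem van_sub_trunc (g : PowerSeries ℚ) (N : ℕ) :
    Van (N + 1) ((g : LaurentSeries ℚ) -
      (((trunc (N + 1) g : Polynomial ℚ) : PowerSeries ℚ) : LaurentSeries ℚ)) := by
  intro k hk
  rw [← map_sub, PowerSeries.coeff_coe]
  split_ifs with h
  · rfl
  · rw [map_sub, Polynomial.coeff_coe, coeff_trunc, if_pos (by omega), sub_self]

/-- **Key lemma** -/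
theorem key (hX : algebraMap (RatFunc ℚ) F RatFunc.X = b⁻¹) (hS : Sys b Z) {ι : Type*}
    [Fintype ι] (n : ι → F) (g : ι → PowerSeries ℚ) (m' : ℕ) (hn : ∀ i, n i ∈ Z)
    (hn' : ∀ i, Bd b m' (n i)) (m : ℕ)
    (h : ∀ N, Bd b m (b ^ N * ∑ i, n i * Ev b N (g i)))
    (θ : F →ₗ[RatFunc ℚ] RatFunc ℚ) :
    ∑ i, LL θ (n i) * (g i : LaurentSeries ℚ) = 0 := by
  classical
  have hb0 : b ≠ 0 := hS.pos.ne'
  choose s hs hs' using fun i => exists_digits hS m' (hn i) (hn' i)
  let S : Finset F := insert b (univ.biUnion s)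
  let V : Submodule ℚ F := Submodule.span ℚ (S : Set F)
  have hbV : b ∈ V := Submodule.subset_span (by simp [S])
  have hsV : ∀ i, ((s i : Finset F) : Set F) ⊆ V := by
    intro i x hx
    refine Submodule.subset_span ?_
    have hx' : x ∈ s i := by exact_mod_cast hx
    have : x ∈ S := Finset.mem_insert_of_mem (Finset.mem_biUnion.2 ⟨i, Finset.mem_univ _, hx'⟩)
    exact_mod_cast this
  have hV : ∀ v ∈ V, v ∈ Z ∧ Bd b 1 v := by
    intro v hv
    induction hv using Submodule.span_induction with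
    | mem x hx =>
      have hx' : x ∈ S := by exact_mod_cast hx
      rcases Finset.mem_insert.1 hx' with rfl | hx'
      · exact ⟨hS.bmem, Bd.self hS⟩
      · obtain ⟨i, -, hi⟩ := Finset.mem_biUnion.1 hx'
        exact hs i x hi
    | zero => exact ⟨Z.zero_mem, Bd.zero⟩
    | add x y _ _ hx hy => exact ⟨Z.add_mem hx.1 hy.1, hx.2.add hy.2⟩
    | smul q x _ hx =>
      rw [Rat.smul_def]
      exact ⟨Z.mul_mem (hS.rat q) hx.1, hx.2.smul q⟩
  have hnV : ∀ i, n i ∈ WW b V m' := fun i => hs' i V (hsV i)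
  -- the truncated sums have few digits
  have he : ∀ N, b ^ N * ∑ i, n i * Ev b N (g i) ∈ WW b V m := by
    intro N
    have h1 : b ^ N * ∑ i, n i * Ev b N (g i) ∈ WW b V (m' + N) := by
      rw [Finset.mul_sum]
      refine Submodule.sum_mem _ fun i _ => ?_
      rw [Ev, Finset.mul_sum, Finset.mul_sum]
      refine Submodule.sum_mem _ fun k hk => ?_
      rw [mem_range] at hk
      have e : b ^ N * (n i * (((coeff k (g i) : ℚ) : F) * b⁻¹ ^ k)) =
          (coeff k (g i) : ℚ) • (b ^ (N - k) * n i) := by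
        have e1 : b ^ N = b ^ (N - k) * b ^ k := by
          rw [← _root_.pow_add]; congr 1; omega
        rw [Rat.smul_def, e1, inv_pow]
        have hbk : b ^ k ≠ 0 := pow_ne_zero _ hb0
        field_simp
      rw [e]
      exact Submodule.smul_mem _ _ (WW_mono V (by omega) (pow_mul_mem_WW' V (hnV i) (N - k)))
    exact WW_small hS V hV hbV m (m' + N) h1 (Bd.mono hS (by omega) (h N))
  obtain ⟨K1, hK1⟩ := LL_WW hX hb0 θ S m
  choose K2 hK2 using fun i => exists_van (LL θ (n i))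
  obtain ⟨K3, hK3⟩ : ∃ K3 : ℤ, ∀ i, K3 ≤ K2 i := by
    obtain ⟨K3, hK3⟩ := (Finset.univ.image K2).bddBelow
    exact ⟨K3, fun i => hK3 (by exact_mod_cast Finset.mem_image_of_mem _ (Finset.mem_univ i))⟩
  apply eq_zero_of_van
  intro K
  obtain ⟨N, hN1, hN2⟩ : ∃ N : ℕ, (K : ℤ) ≤ K1 + N ∧ (K : ℤ) ≤ K3 + (N + 1) :=
    ⟨(K - K1).toNat + (K - K3).toNat, by omega, by omega⟩
  have hsplit : ∑ i, LL θ (n i) * (g i : LaurentSeries ℚ) =
      LL θ (∑ i, n i * Ev b N (g i)) + ∑ i, LL θ (n i) * ((g i : LaurentSeries ℚ) -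
        (((trunc (N + 1) (g i) : Polynomial ℚ) : PowerSeries ℚ) : LaurentSeries ℚ)) := by
    rw [LL_sum, ← Finset.sum_add_distrib]
    refine Finset.sum_congr rfl fun i _ => ?_
    rw [LL_Ev hX]
    ring
  rw [hsplit]
  refine Van.add ?_ ?_
  · rw [LL_pow hX hb0 θ N]
    have := (van_single (N : ℤ) 1).mul (hK1 _ (he N))
    exact this.mono (by omega)
  · refine Van.sum _ _ fun i _ => ?_
    have := (hK2 i).mul (van_sub_trunc (g i) N)
    exact this.mono (by have := hK3 i; omega)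

end

end Pool.Agent.H91.DG
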