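import Pool.Agent.H91.DG.Hyp

/-!
# Transfer of irreducibility to the hyperrationals
-/

namespace Pool.Agent.H91.DG

open Filter Finset Polynomial

/-- polynomials over sequences to polynomials over the hyperrationals -/
noncomputable def Ph : Polynomial (ℕ → ℚ) →+* Polynomial HQ := mapRingHom gm

/-- the `n`-th component -/
noncomputable def En (n : ℕ) : Polynomial (ℕ → ℚ) →+* Polynomial ℚ :=
  mapRingHom (Pi.evalRingHom _ n)

theorem En_coeff (n : ℕ) (G : Polynomial (ℕ → ℚ)) (j : ℕ) : (En n G).coeff j = G.coeff j n := by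
  rw [En, coe_mapRingHom, coeff_map]; rfl

theorem Ph_coeff (G : Polynomial (ℕ → ℚ)) (j : ℕ) : (Ph G).coeff j = gm (G.coeff j) := by
  rw [Ph, coe_mapRingHom, coeff_map]

theorem Ph_surj (G : Polynomial HQ) : ∃ G', Ph G' = G := by
  obtain ⟨G', h⟩ := map_surjective gm gm_surj G
  exact ⟨G', h⟩

theorem Ph_eq_iff {G H : Polynomial (ℕ → ℚ)} : Ph G = Ph H ↔ ∀ᶠ n in UU, En n G = En n H := by
  constructor
  · intro h
    have h1 : ∀ j ∈ range (G.natDegree + H.natDegree + 1), ∀ᶠ n in UU, G.coeff j n = H.coeff j n := by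
      intro j _
      have := congrArg (fun P => P.coeff j) h
      simp only [Ph_coeff] at this
      exact gm_eq.1 this
    rw [← Filter.eventually_all_finset] at h1
    filter_upwards [h1] with n hn
    ext j
    rw [En_coeff, En_coeff]
    by_cases hj : j ∈ range (G.natDegree + H.natDegree + 1)
    · exact hn j hj
    · rw [mem_range, not_lt] at hj
      rw [coeff_eq_zero_of_natDegree_lt (by omega), coeff_eq_zero_of_natDegree_lt (by omega)]
  · intro h
    ext j
    rw [Ph_coeff, Ph_coeff, gm_eq]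
    filter_upwards [h] with n hn
    rw [← En_coeff, ← En_coeff, hn]

theorem Ph_isUnit_iff {G : Polynomial (ℕ → ℚ)} : IsUnit (Ph G) ↔ ∀ᶠ n in UU, IsUnit (En n G) := by
  constructor
  · intro h
    obtain ⟨c, hc, hc'⟩ := isUnit_iff.1 h
    obtain ⟨u, rfl⟩ := gm_surj c
    have h1 : Ph G = Ph (C u) := by rw [← hc', Ph, coe_mapRingHom, map_C]
    have h2 : ∀ᶠ n in UU, u n ≠ 0 := by
      by_contra hcon
      rw [← Ultrafilter.eventually_not] at hcon
      have h3 : gm u = gm 0 := gm_eq.2 (by simpa using hcon)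
      rw [h3, map_zero] at hc
      exact not_isUnit_zero hc
    filter_upwards [Ph_eq_iff.1 h1, h2] with n h3 h4
    rw [h3, En, coe_mapRingHom, map_C]
    exact isUnit_C.2 (isUnit_iff_ne_zero.2 h4)
  · intro h
    have h1 : Ph G = Ph (C (G.coeff 0)) := by
      rw [Ph_eq_iff]
      filter_upwards [h] with n hn
      obtain ⟨c, -, hc'⟩ := isUnit_iff.1 hn
      have h2 : c = G.coeff 0 n := by
        rw [← En_coeff, ← hc', coeff_C_zero]
      rw [← hc', h2, En, coe_mapRingHom, map_C]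
      rfl
    rw [h1, Ph, coe_mapRingHom, map_C, isUnit_C, isUnit_iff_ne_zero]
    intro h3
    have h4 : gm (G.coeff 0) = gm 0 := by rw [h3, map_zero]
    obtain ⟨n, hn1, hn2⟩ := ((gm_eq.1 h4).and h).exists
    obtain ⟨c, hc, hc'⟩ := isUnit_iff.1 hn2
    have h5 : c = G.coeff 0 n := by
      rw [← En_coeff, ← hc', coeff_C_zero]
    rw [h5, hn1] at hc
    exact not_isUnit_zero hc

theorem Ph_irreducible {Q : Polynomial (ℕ → ℚ)} (h : ∀ᶠ n in UU, Irreducible (En n Q)) :
    Irreducible (Ph Q) := by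
  refine ⟨?_, ?_⟩
  · intro hu
    obtain ⟨n, hn1, hn2⟩ := (h.and (Ph_isUnit_iff.1 hu)).exists
    exact hn1.not_isUnit hn2
  · intro A B hAB
    obtain ⟨G, rfl⟩ := Ph_surj A
    obtain ⟨H, rfl⟩ := Ph_surj B
    rw [← map_mul, Ph_eq_iff] at hAB
    rw [Ph_isUnit_iff, Ph_isUnit_iff, ← Ultrafilter.eventually_or]
    filter_upwards [h, hAB] with n h1 h2
    rw [map_mul] at h2
    exact h1.isUnit_or_isUnit h2

theorem Ph_eval (Q : Polynomial (ℕ → ℚ)) (x : ℕ → ℚ) :
    (Ph Q).eval (gm x) = gm (fun n => (En n Q).eval (x n)) := by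
  rw [Ph, coe_mapRingHom, eval_map, eval₂_at_apply]
  congr 1
  funext n
  rw [En, coe_mapRingHom]
  have : (Q.map (Pi.evalRingHom (fun _ => ℚ) n)).eval (Pi.evalRingHom (fun _ => ℚ) n x) =
      Pi.evalRingHom (fun _ => ℚ) n (Q.eval x) := by
    rw [eval_map, eval₂_at_apply]
  exact this.symm

end Pool.Agent.H91.DG
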