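import Pool.Agent.H91.DG.Real
import Pool.Agent.H91.DG.Trans
import Pool.Agent.H91.DG.Abs

/-!
# The number of digits of an algebraic irrational number tends to infinity with the base
-/

namespace Pool.Agent.H91.DG

open Filter Finset
open scoped RatFunc

theorem gm_inv (x : ℕ → ℚ) : gm (fun n => (x n)⁻¹) = (gm x)⁻¹ := rfl

/-- an integer polynomial with an irrational root which is irreducible over `ℤ` has no rational
root -/
theorem no_rat_root {P : Polynomial ℤ} (hP : Irreducible P) {r : ℝ} (hr : Irrational r)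
    (h : Polynomial.aeval r P = 0) : Irreducible (P.map (Int.castRingHom ℚ)) ∧
      ∀ q : ℚ, (P.map (Int.castRingHom ℚ)).eval q ≠ 0 := by
  have hdeg : P.natDegree ≠ 0 := by
    intro h0
    rw [Polynomial.eq_C_of_natDegree_eq_zero h0] at h hP
    rw [Polynomial.aeval_C] at h
    have h' : P.coeff 0 = 0 := by
      have h2 : ((P.coeff 0 : ℤ) : ℝ) = 0 := by simpa using h
      exact_mod_cast h2
    rw [h', map_zero] at hP
    exact hP.ne_zero rfl
  have hirr : Irreducible (P.map (Int.castRingHom ℚ)) :=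
    (Polynomial.IsPrimitive.Int.irreducible_iff_irreducible_map_cast (hP.isPrimitive hdeg)).1 hP
  refine ⟨hirr, fun q hq => ?_⟩
  have h1 := Polynomial.degree_eq_one_of_irreducible_of_root hirr hq
  set Q := P.map (Int.castRingHom ℚ) with hQ
  have h2 : Polynomial.aeval r Q = 0 := by
    rw [hQ, ← h]
    simp [Polynomial.aeval_def, Polynomial.eval₂_map]
    congr 1
  have h3 := Polynomial.eq_X_add_C_of_degree_le_one h1.le
  have ha : Q.coeff 1 ≠ 0 := by
    intro h4
    rw [h4, map_zero, zero_mul, zero_add] at h3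
    rw [h3] at h1
    have := Polynomial.degree_C_le (a := Q.coeff 0)
    rw [h1] at this
    exact absurd this (by decide)
  rw [h3] at h2
  simp only [map_add, map_mul, Polynomial.aeval_C, Polynomial.aeval_X, eq_ratCast] at h2
  apply hr
  refine ⟨-(Q.coeff 0) / Q.coeff 1, ?_⟩
  have ha' : ((Q.coeff 1 : ℚ) : ℝ) ≠ 0 := by exact_mod_cast ha
  push_cast
  field_simp
  linarith

/-- **Main theorem**: uniform form -/
theorem digits_unbounded (D A C : ℕ) : ∃ B : ℕ, ∀ b : ℕ, B ≤ b → ∀ r : ℝ, 0 ≤ r → r < 1 →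
    Irrational r → (∃ P : Polynomial ℤ, Irreducible P ∧ P.natDegree ≤ D ∧
      (∀ i, |P.coeff i| ≤ (b : ℤ) ^ A) ∧ Polynomial.aeval r P = 0) →
    C < ((range B).image (dig b r)).card := by
  classical
  by_contra hcon
  push Not at hcon
  choose bs hbs rs h0 h1 hirr hP hcard using hcon
  choose Ps hPirr hPdeg hPcoef hProot using hP
  -- the digits
  choose d hd hd' using fun n => enum_finset _ (hcard n)
  have hw : ∀ n k, ∃ i : Fin (C + 1), k < n → d n i = dig (bs n) (rs n) k := by
    intro n k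
    by_cases hk : k < n
    · obtain ⟨i, hi⟩ := hd' n _ (Finset.mem_image_of_mem (dig (bs n) (rs n)) (mem_range.2 hk))
      exact ⟨i, fun _ => hi⟩
    · exact ⟨0, fun h => absurd h hk⟩
  choose w hw using hw
  have hwl : ∀ k, ∃ i : Fin (C + 1), ∀ᶠ n in UU, w n k = i := by
    intro k
    obtain ⟨i, hi⟩ := Ultrafilter.eq_pure_of_finite (UU.map fun n => w n k)
    refine ⟨i, ?_⟩
    have : ({i} : Set (Fin (C + 1))) ∈ UU.map fun n => w n k := by
      rw [hi]; exact Set.mem_singleton i
    exact this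
  choose wl hwl using hwl
  have hge : ∀ c : ℕ, ∀ᶠ n in UU, c ≤ n := fun c =>
    (eventually_ge_atTop c).filter_mono Nat.hyperfilter_le_atTop
  set b : HQ := gm fun n => (bs n : ℚ) with hb
  have hS : Sys b ZZ := sys_HQ hbs
  let f : Fin (C + 1) → PowerSeries ℚ := fun i =>
    PowerSeries.mk fun k => if k ≠ 0 ∧ wl (k - 1) = i then 1 else 0
  have hf : ∀ i, Nice (f i) := by
    intro i
    refine ⟨⟨1, fun k => ?_⟩, 1, one_ne_zero, fun k => ?_⟩
    · simp only [f, PowerSeries.coeff_mk]
      split_ifs <;> simp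
    · simp only [f, PowerSeries.coeff_mk]
      split_ifs
      · exact ⟨1, by simp⟩
      · exact ⟨0, by simp⟩
  let dF : Fin (C + 1) → HQ := fun i => gm fun n => (d n i : ℚ)
  have hdF : ∀ i, dF i ∈ ZZ := fun i => int_mem_ZZ _
  have hbpos : ∀ᶠ n in UU, bs n ≠ 0 := by
    filter_upwards [hge 1] with n hn
    have := hbs n
    omega
  have hdF' : ∀ i, Bd b 1 (dF i) := by
    intro i
    refine ⟨1, ?_⟩
    rw [pow_one, Rat.cast_one, one_mul, gm_abs, hb, gm_le]
    filter_upwards [hbpos] with n hn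
    rcases hd n i with h | h
    · obtain ⟨k, -, hk⟩ := Finset.mem_image.1 h
      have h2 := dig_nonneg hn (rs n) k
      have h3 := dig_lt hn (rs n) k
      rw [hk] at h2 h3
      rw [abs_of_nonneg (by exact_mod_cast h2)]
      exact_mod_cast h3.le
    · rw [h]
      simp
  -- the approximation of `r`
  let ρ : ℕ → ℕ → ℚ := fun N n => ∑ k ∈ range N, (dig (bs n) (rs n) k : ℚ) * ((bs n : ℚ)⁻¹) ^ (k + 1)
  have hρ : ∀ N, ∑ i, dF i * Ev b N (f i) = gm (ρ N) := by
    intro N
    have e1 : ∑ i, dF i * Ev b N (f i) = ∑ k ∈ range N, dF (wl k) * b⁻¹ ^ (k + 1) := by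
      simp only [Ev, Finset.mul_sum]
      rw [Finset.sum_comm, Finset.sum_range_succ']
      have e2 : ∑ i, dF i * (((PowerSeries.coeff 0 (f i) : ℚ) : HQ) * b⁻¹ ^ 0) = 0 := by
        refine Finset.sum_eq_zero fun i _ => ?_
        simp only [f, PowerSeries.coeff_mk]
        simp
      rw [e2, add_zero]
      refine Finset.sum_congr rfl fun k _ => ?_
      rw [Finset.sum_eq_single (wl k)]
      · simp only [f, PowerSeries.coeff_mk]
        simp
      · intro i _ hi
        simp only [f, PowerSeries.coeff_mk]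
        rw [if_neg]
        · simp
        · rintro ⟨-, h⟩
          exact hi (by simpa using h.symm)
      · intro h
        exact absurd (Finset.mem_univ _) h
    have e3 : ∑ k ∈ range N, dF (wl k) * b⁻¹ ^ (k + 1) =
        gm (∑ k ∈ range N, (fun n => (d n (wl k) : ℚ)) * (fun n => ((bs n : ℚ)⁻¹)) ^ (k + 1)) := by
      rw [map_sum]
      refine Finset.sum_congr rfl fun k _ => ?_
      rw [map_mul, map_pow, gm_inv]
    rw [e1, e3, gm_eq]
    have h2 : ∀ k ∈ range N, ∀ᶠ n in UU, w n k = wl k := fun k _ => hwl k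
    rw [← Filter.eventually_all_finset] at h2
    filter_upwards [h2, hge N] with n hn hnN
    rw [Finset.sum_apply]
    refine Finset.sum_congr rfl fun k hk => ?_
    have h3 := hw n k (by rw [mem_range] at hk; omega)
    rw [hn k hk] at h3
    simp only [Pi.mul_apply, Pi.pow_apply]
    rw [h3]
  -- the polynomial
  let Q : Polynomial (ℕ → ℚ) := ∑ j ∈ range (D + 1),
    Polynomial.C (fun n => ((Ps n).coeff j : ℚ)) * Polynomial.X ^ j
  have hQcoef : ∀ j, Q.coeff j = fun n => ((Ps n).coeff j : ℚ) := by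
    intro j
    simp only [Q, Polynomial.finset_sum_coeff, Polynomial.coeff_C_mul, Polynomial.coeff_X_pow,
      mul_ite, mul_one, mul_zero]
    rw [Finset.sum_ite_eq]
    split_ifs with hj
    · rfl
    · funext n
      rw [Polynomial.coeff_eq_zero_of_natDegree_lt]
      · simp
      · rw [mem_range] at hj
        have := hPdeg n
        omega
  have hEn : ∀ n, En n Q = (Ps n).map (Int.castRingHom ℚ) := by
    intro n
    ext j
    rw [En_coeff, hQcoef, Polynomial.coeff_map]
    simp
  have hirrF : Irreducible (Ph Q) := by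
    refine Ph_irreducible (Eventually.of_forall fun n => ?_)
    rw [hEn]
    exact (no_rat_root (hPirr n) (hirr n) (hProot n)).1
  letI := algF hS
  have hX : algebraMap (RatFunc ℚ) HQ RatFunc.X = b⁻¹ := algF_X hS
  obtain ⟨x, hx⟩ := exists_root hX hS dF hdF hdF' f hf (Ph Q) hirrF.separable A
    (fun j => by
      rw [Ph_coeff, hQcoef]
      exact int_mem_ZZ _)
    (fun j => by
      rw [Ph_coeff, hQcoef]
      refine ⟨1, ?_⟩
      rw [Rat.cast_one, one_mul, gm_abs, hb, ← map_pow, gm_le]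
      refine Eventually.of_forall fun n => ?_
      simp only [Pi.pow_apply]
      exact_mod_cast hPcoef n j) A
    (fun N => by
      rw [hρ, Ph_eval]
      refine ⟨((D : ℚ) + 1) ^ 2, ?_⟩
      rw [hb, ← map_pow, ← map_mul, gm_abs, ← gm_const, ← map_pow, ← map_mul, gm_le]
      filter_upwards [hbpos] with n hn
      simp only [Pi.mul_apply, Pi.pow_apply]
      rw [hEn]
      obtain ⟨a1, a2, a3⟩ := dig_approx hn (h0 n) (h1 n) N
      set x : ℝ := ∑ k ∈ range N, (dig (bs n) (rs n) k : ℝ) * ((bs n : ℝ)⁻¹) ^ (k + 1) with hxdef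
      have hxρ : ((ρ N n : ℚ) : ℝ) = x := by
        simp only [ρ, hxdef]
        push_cast
        rfl
      have h5 := poly_small (hPdeg n) (H := (bs n : ℝ) ^ A)
        (fun i => by exact_mod_cast hPcoef n i) (hProot n) (h0 n) (h1 n).le a2 a3
      have h6 : ((((Ps n).map (Int.castRingHom ℚ)).eval (ρ N n) : ℚ) : ℝ) =
          Polynomial.aeval x (Ps n) := by
        rw [← hxρ, Polynomial.eval_map, Polynomial.aeval_def]
        have e := Polynomial.hom_eval₂ (Ps n) (Int.castRingHom ℚ) (Rat.castHom ℝ) (ρ N n)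
        have e2 : (Rat.castHom ℝ).comp (Int.castRingHom ℚ) = algebraMap ℤ ℝ := RingHom.ext_int _ _
        rw [e2] at e
        exact e
      have hbR : (0 : ℝ) < bs n := by exact_mod_cast Nat.pos_of_ne_zero hn
      have h7 : |(bs n : ℝ) ^ N * Polynomial.aeval x (Ps n)| ≤ ((D : ℝ) + 1) ^ 2 * (bs n : ℝ) ^ A := by
        rw [abs_mul, abs_of_pos (pow_pos hbR N)]
        calc (bs n : ℝ) ^ N * |Polynomial.aeval x (Ps n)|
            ≤ (bs n : ℝ) ^ N * (((D : ℝ) + 1) ^ 2 * (bs n : ℝ) ^ A * ((bs n : ℝ)⁻¹) ^ N) := by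
              refine mul_le_mul_of_nonneg_left (h5.trans ?_) (pow_pos hbR N).le
              exact mul_le_mul_of_nonneg_left a1 (by positivity)
          _ = ((D : ℝ) + 1) ^ 2 * (bs n : ℝ) ^ A * ((bs n : ℝ) * (bs n : ℝ)⁻¹) ^ N := by
              rw [mul_pow]; ring
          _ = ((D : ℝ) + 1) ^ 2 * (bs n : ℝ) ^ A := by
              rw [mul_inv_cancel₀ hbR.ne', one_pow, mul_one]
      rw [← h6] at h7
      exact_mod_cast h7)
  obtain ⟨u, rfl⟩ := gm_surj x
  rw [Ph_eval, ← map_zero gm, gm_eq] at hx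
  obtain ⟨n, hn⟩ := hx.exists
  rw [hEn] at hn
  exact (no_rat_root (hPirr n) (hirr n) (hProot n)).2 _ hn

end Pool.Agent.H91.DG
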