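import Mathlib

/-!
# Real estimates
-/

namespace Pool.Agent.H91.DG

open Finset

/-- digit number `k + 1` of `r` in base `b` -/
noncomputable def dig (b : ℕ) (r : ℝ) (k : ℕ) : ℤ := ⌊r * (b : ℝ) ^ (k + 1)⌋ % (b : ℤ)

theorem dig_nonneg {b : ℕ} (hb : b ≠ 0) (r : ℝ) (k : ℕ) : 0 ≤ dig b r k :=
  Int.emod_nonneg _ (by exact_mod_cast hb)

theorem dig_lt {b : ℕ} (hb : b ≠ 0) (r : ℝ) (k : ℕ) : dig b r k < b :=
  Int.emod_lt_of_pos _ (by exact_mod_cast Nat.pos_of_ne_zero hb)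

theorem sum_dig {b : ℕ} (hb : b ≠ 0) {r : ℝ} (h0 : 0 ≤ r) (h1 : r < 1) (N : ℕ) :
    ∑ k ∈ range N, (dig b r k : ℝ) * ((b : ℝ)⁻¹) ^ (k + 1) =
      (⌊r * (b : ℝ) ^ N⌋ : ℝ) * ((b : ℝ)⁻¹) ^ N := by
  have hbR : (b : ℝ) ≠ 0 := by exact_mod_cast hb
  induction N with
  | zero =>
    rw [Finset.sum_range_zero, pow_zero, mul_one, Int.floor_eq_zero_iff.2 ⟨h0, h1⟩]
    simp
  | succ N ih =>
    rw [Finset.sum_range_succ, ih]
    have h2 : ⌊r * (b : ℝ) ^ (N + 1)⌋ / (b : ℤ) = ⌊r * (b : ℝ) ^ N⌋ := by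
      have := Int.mul_natCast_floor_div_cancel hb (r * (b : ℝ) ^ N)
      rw [mul_assoc, ← pow_succ] at this
      exact this
    have h3 := Int.mul_ediv_add_emod ⌊r * (b : ℝ) ^ (N + 1)⌋ (b : ℤ)
    rw [h2] at h3
    have h4 : (⌊r * (b : ℝ) ^ (N + 1)⌋ : ℝ) = b * (⌊r * (b : ℝ) ^ N⌋ : ℝ) + (dig b r N : ℝ) := by
      rw [dig]
      exact_mod_cast h3.symm
    rw [h4, pow_succ]
    field_simp

theorem dig_approx {b : ℕ} (hb : b ≠ 0) {r : ℝ} (h0 : 0 ≤ r) (h1 : r < 1) (N : ℕ) :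
    |∑ k ∈ range N, (dig b r k : ℝ) * ((b : ℝ)⁻¹) ^ (k + 1) - r| ≤ ((b : ℝ)⁻¹) ^ N ∧
    0 ≤ ∑ k ∈ range N, (dig b r k : ℝ) * ((b : ℝ)⁻¹) ^ (k + 1) ∧
    ∑ k ∈ range N, (dig b r k : ℝ) * ((b : ℝ)⁻¹) ^ (k + 1) ≤ 1 := by
  rw [sum_dig hb h0 h1]
  have hbR : (0 : ℝ) < b := by exact_mod_cast Nat.pos_of_ne_zero hb
  have hbN : (0 : ℝ) < (b : ℝ) ^ N := pow_pos hbR _
  have hbN' : (0 : ℝ) < ((b : ℝ)⁻¹) ^ N := pow_pos (inv_pos.2 hbR) _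
  have e : (b : ℝ) ^ N * ((b : ℝ)⁻¹) ^ N = 1 := by
    rw [← mul_pow, mul_inv_cancel₀ hbR.ne', one_pow]
  have h2 := Int.floor_le (r * (b : ℝ) ^ N)
  have h3 := Int.lt_floor_add_one (r * (b : ℝ) ^ N)
  have h4 : (0 : ℝ) ≤ (⌊r * (b : ℝ) ^ N⌋ : ℝ) := by
    exact_mod_cast Int.floor_nonneg.2 (by positivity)
  have h5 : (⌊r * (b : ℝ) ^ N⌋ : ℝ) * ((b : ℝ)⁻¹) ^ N ≤ r := by
    calc (⌊r * (b : ℝ) ^ N⌋ : ℝ) * ((b : ℝ)⁻¹) ^ N ≤ (r * (b : ℝ) ^ N) * ((b : ℝ)⁻¹) ^ N :=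
          mul_le_mul_of_nonneg_right h2 hbN'.le
      _ = r := by rw [mul_assoc, e, mul_one]
  have h6 : r ≤ (⌊r * (b : ℝ) ^ N⌋ : ℝ) * ((b : ℝ)⁻¹) ^ N + ((b : ℝ)⁻¹) ^ N := by
    calc r = (r * (b : ℝ) ^ N) * ((b : ℝ)⁻¹) ^ N := by rw [mul_assoc, e, mul_one]
      _ ≤ (⌊r * (b : ℝ) ^ N⌋ + 1) * ((b : ℝ)⁻¹) ^ N :=
          mul_le_mul_of_nonneg_right h3.le hbN'.le
      _ = _ := by ring
  refine ⟨?_, mul_nonneg h4 hbN'.le, h5.trans h1.le⟩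
  rw [abs_le]
  constructor <;> linarith

theorem pow_sub_le {x y : ℝ} (hx0 : 0 ≤ x) (hx1 : x ≤ 1) (hy0 : 0 ≤ y) (hy1 : y ≤ 1) (j : ℕ) :
    |x ^ j - y ^ j| ≤ j * |x - y| := by
  induction j with
  | zero => simp
  | succ j ih =>
    have e : x ^ (j + 1) - y ^ (j + 1) = x * (x ^ j - y ^ j) + (x - y) * y ^ j := by ring
    rw [e]
    calc |x * (x ^ j - y ^ j) + (x - y) * y ^ j| ≤ |x * (x ^ j - y ^ j)| + |(x - y) * y ^ j| :=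
          abs_add_le _ _
      _ ≤ 1 * (j * |x - y|) + |x - y| * 1 := by
          rw [abs_mul, abs_mul, abs_of_nonneg hx0, abs_of_nonneg (pow_nonneg hy0 j)]
          exact add_le_add (mul_le_mul hx1 ih (abs_nonneg _) zero_le_one)
            (mul_le_mul_of_nonneg_left (pow_le_one₀ hy0 hy1) (abs_nonneg _))
      _ = ((j + 1 : ℕ) : ℝ) * |x - y| := by push_cast; ring

theorem poly_small {P : Polynomial ℤ} {D : ℕ} (hD : P.natDegree ≤ D) {H : ℝ}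
    (hH : ∀ i, |(P.coeff i : ℝ)| ≤ H) {r : ℝ} (hr : Polynomial.aeval r P = 0) (h0 : 0 ≤ r)
    (h1 : r ≤ 1) {x : ℝ} (hx0 : 0 ≤ x) (hx1 : x ≤ 1) :
    |Polynomial.aeval x P| ≤ (D + 1) ^ 2 * H * |x - r| := by
  have hH0 : 0 ≤ H := (abs_nonneg _).trans (hH 0)
  have e : ∀ y : ℝ, Polynomial.aeval y P = ∑ j ∈ range (D + 1), (P.coeff j : ℝ) * y ^ j := by
    intro y
    rw [Polynomial.aeval_eq_sum_range' (n := D + 1) (by omega)]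
    refine Finset.sum_congr rfl fun j _ => ?_
    rw [zsmul_eq_mul]
  have h2 : Polynomial.aeval x P = ∑ j ∈ range (D + 1), (P.coeff j : ℝ) * (x ^ j - r ^ j) := by
    rw [← sub_zero (Polynomial.aeval x P), ← hr, e, e, ← Finset.sum_sub_distrib]
    refine Finset.sum_congr rfl fun j _ => ?_
    ring
  rw [h2]
  calc |∑ j ∈ range (D + 1), (P.coeff j : ℝ) * (x ^ j - r ^ j)|
      ≤ ∑ j ∈ range (D + 1), |(P.coeff j : ℝ) * (x ^ j - r ^ j)| := Finset.abs_sum_le_sum_abs _ _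
    _ ≤ ∑ j ∈ range (D + 1), H * ((D + 1) * |x - r|) := by
        refine Finset.sum_le_sum fun j hj => ?_
        rw [mem_range] at hj
        rw [abs_mul]
        have h3 : (j : ℝ) ≤ D + 1 := by
          have : j ≤ D + 1 := hj.le
          exact_mod_cast this
        exact mul_le_mul (hH j) ((pow_sub_le hx0 hx1 h0 h1 j).trans
          (mul_le_mul_of_nonneg_right h3 (abs_nonneg _))) (abs_nonneg _) hH0
    _ = (D + 1) ^ 2 * H * |x - r| := by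
        rw [Finset.sum_const, card_range, nsmul_eq_mul]
        push_cast
        ring

/-- enumeration of a finite set -/
theorem enum_finset (S : Finset ℤ) {C : ℕ} (hS : S.card ≤ C) :
    ∃ d : Fin (C + 1) → ℤ, (∀ i, d i ∈ S ∨ d i = 0) ∧ ∀ x ∈ S, ∃ i, d i = x := by
  classical
  let e := S.equivFin
  refine ⟨fun i => if h : (i : ℕ) < S.card then (e.symm ⟨i, h⟩ : ℤ) else 0, fun i => ?_, fun x hx => ?_⟩
  · by_cases h : (i : ℕ) < S.card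
    · left
      simp only [h, dif_pos]
      exact (e.symm ⟨i, h⟩).2
    · right
      simp only [h, dif_neg, not_false_eq_true]
  · refine ⟨⟨e ⟨x, hx⟩, by have := (e ⟨x, hx⟩).2; omega⟩, ?_⟩
    have h : (e ⟨x, hx⟩ : ℕ) < S.card := (e ⟨x, hx⟩).2
    simp only [h, dif_pos, Fin.eta, Equiv.symm_apply_apply]

end Pool.Agent.H91.DG
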