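import Pool.Agent.H91.DG.Key

/-!
# From the approximate root to a root in the tensor product
-/

namespace Pool.Agent.H91.DG

open Finset PowerSeries
open scoped RatFunc LaurentSeries TensorProduct

section ev

variable {F : Type*} [Field F] [LinearOrder F] [IsStrictOrderedRing F] {b : F} {Z : Subring F}

theorem Ev_eq (N : ℕ) (g : PowerSeries ℚ) :
    Ev b N g = (trunc (N + 1) g).eval₂ (Rat.castHom F) b⁻¹ := by
  rw [Polynomial.eval₂_eq_sum_range' _ (n := N + 1) (natDegree_trunc_lt g N), Ev]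
  refine Finset.sum_congr rfl fun k hk => ?_
  rw [coeff_trunc, if_pos (mem_range.1 hk)]
  rfl

theorem Bd_eval (hS : Sys b Z) (R : Polynomial ℚ) : Bd b 0 (R.eval₂ (Rat.castHom F) b⁻¹) := by
  rw [Polynomial.eval₂_eq_sum_range]
  refine Bd.sum _ _ fun k _ => ?_
  refine Bd.smul _ ?_
  refine ⟨1, ?_⟩
  have hb := hS.one_lt
  have h1 : 0 ≤ b⁻¹ := inv_nonneg.2 hS.pos.le
  have h2 : b⁻¹ ≤ 1 := inv_le_one_of_one_le₀ hb.le
  rw [abs_of_nonneg (pow_nonneg h1 _)]
  simpa using pow_le_one₀ h1 h2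

theorem Bd_Ev (hS : Sys b Z) (N : ℕ) (g : PowerSeries ℚ) : Bd b 0 (Ev b N g) := by
  rw [Ev_eq]
  exact Bd_eval hS _

theorem Ev_mul (hS : Sys b Z) (N : ℕ) (g h : PowerSeries ℚ) :
    Bd b 0 (b ^ N * (Ev b N g * Ev b N h - Ev b N (g * h))) := by
  have hb0 : b ≠ 0 := hS.pos.ne'
  obtain ⟨R, hR⟩ : (Polynomial.X : Polynomial ℚ) ^ (N + 1) ∣
      trunc (N + 1) g * trunc (N + 1) h - trunc (N + 1) (g * h) := by
    rw [Polynomial.X_pow_dvd_iff]
    intro d hd
    have h1 : trunc (N + 1) ((trunc (N + 1) g : PowerSeries ℚ) * (trunc (N + 1) h : PowerSeries ℚ)) =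
        trunc (N + 1) (g * h) := trunc_trunc_mul_trunc g h
    rw [Polynomial.coeff_sub, ← h1, coeff_trunc, if_pos hd, ← Polynomial.coe_mul,
      Polynomial.coeff_coe, sub_self]
  have h2 : Ev b N g * Ev b N h - Ev b N (g * h) = b⁻¹ ^ (N + 1) * R.eval₂ (Rat.castHom F) b⁻¹ := by
    rw [Ev_eq, Ev_eq, Ev_eq, ← Polynomial.eval₂_mul, ← Polynomial.eval₂_sub, hR,
      Polynomial.eval₂_mul, Polynomial.eval₂_X_pow]
  have h3 : b ^ N * (Ev b N g * Ev b N h - Ev b N (g * h)) =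
      (Polynomial.X * R).eval₂ (Rat.castHom F) b⁻¹ := by
    rw [h2, Polynomial.eval₂_mul, Polynomial.eval₂_X, pow_succ, inv_pow]
    field_simp
  rw [h3]
  exact Bd_eval hS _

theorem Ev_one (N : ℕ) : Ev b N 1 = 1 := by
  rw [Ev, Finset.sum_eq_single 0]
  · simp
  · intro k _ hk
    simp [PowerSeries.coeff_one, hk]
  · intro h
    exact absurd (mem_range.2 (Nat.succ_pos N)) h

theorem Ev_prod (hS : Sys b Z) (N : ℕ) {ι : Type*} (s : Finset ι) (g : ι → PowerSeries ℚ) :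
    Bd b 0 (b ^ N * (∏ i ∈ s, Ev b N (g i) - Ev b N (∏ i ∈ s, g i))) := by
  classical
  induction s using Finset.induction_on with
  | empty =>
    rw [Finset.prod_empty, Finset.prod_empty, Ev_one, sub_self, mul_zero]
    exact Bd.zero
  | insert a s ha ih =>
    rw [Finset.prod_insert ha, Finset.prod_insert ha]
    have e : b ^ N * (Ev b N (g a) * ∏ i ∈ s, Ev b N (g i) - Ev b N (g a * ∏ i ∈ s, g i)) =
        Ev b N (g a) * (b ^ N * (∏ i ∈ s, Ev b N (g i) - Ev b N (∏ i ∈ s, g i))) +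
        b ^ N * (Ev b N (g a) * Ev b N (∏ i ∈ s, g i) - Ev b N (g a * ∏ i ∈ s, g i)) := by ring
    rw [e]
    exact (Bd.mul hS (Bd_Ev hS N _) ih).add (Ev_mul hS N _ _)

end ev

section tensor

variable {F : Type*} [Field F] [LinearOrder F] [IsStrictOrderedRing F] {b : F} {Z : Subring F}
  [Algebra (RatFunc ℚ) F]

theorem tensor_zero {ι : Type*} [Fintype ι] (n : ι → F) (g : ι → LaurentSeries ℚ)
    (h : ∀ θ : F →ₗ[RatFunc ℚ] RatFunc ℚ, ∑ i, LL θ (n i) * g i = 0) :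
    ∑ i, n i ⊗ₜ[RatFunc ℚ] g i = 0 := by
  let B := Module.Basis.ofVectorSpace (RatFunc ℚ) F
  apply (TensorProduct.equivFinsuppOfBasisLeft B).injective
  rw [map_zero, map_sum]
  ext1 j
  rw [Finsupp.finsetSum_apply, Finsupp.zero_apply]
  have := h (B.coord j)
  rw [← this]
  refine Finset.sum_congr rfl fun i _ => ?_
  rw [TensorProduct.equivFinsuppOfBasisLeft_apply_tmul_apply, Algebra.smul_def]
  rfl

theorem tmul_prod {ι : Type*} (s : Finset ι) (a : ι → F) (f : ι → LaurentSeries ℚ) :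
    ∏ i ∈ s, (a i ⊗ₜ[RatFunc ℚ] f i) = (∏ i ∈ s, a i) ⊗ₜ[RatFunc ℚ] (∏ i ∈ s, f i) := by
  classical
  induction s using Finset.induction_on with
  | empty => rfl
  | insert a' s ha ih =>
    rw [Finset.prod_insert ha, Finset.prod_insert ha, Finset.prod_insert ha, ih,
      Algebra.TensorProduct.tmul_mul_tmul]

/-- an approximate root gives a root in the tensor product -/
theorem root_tensor (hX : algebraMap (RatFunc ℚ) F RatFunc.X = b⁻¹) (hS : Sys b Z) {C : ℕ}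
    (d : Fin C → F) (hd : ∀ i, d i ∈ Z) (hd' : ∀ i, Bd b 1 (d i)) (f : Fin C → PowerSeries ℚ)
    (P : Polynomial F) (A : ℕ) (hP : ∀ j, P.coeff j ∈ Z) (hP' : ∀ j, Bd b A (P.coeff j))
    (m : ℕ) (h : ∀ N, Bd b m (b ^ N * P.eval (∑ i, d i * Ev b N (f i)))) :
    Polynomial.aeval (∑ i, d i ⊗ₜ[RatFunc ℚ] (f i : LaurentSeries ℚ)) P = 0 := by
  classical
  set D := P.natDegree
  -- index set
  let ι := Σ j : Fin (D + 1), (Fin j → Fin C)
  let n : ι → F := fun μ => P.coeff μ.1 * ∏ t, d (μ.2 t)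
  let g : ι → PowerSeries ℚ := fun μ => ∏ t, f (μ.2 t)
  have hn : ∀ μ, n μ ∈ Z := fun μ => Z.mul_mem (hP _) (Subring.prod_mem _ fun t _ => hd _)
  have hn' : ∀ μ, Bd b (A + D) (n μ) := by
    intro μ
    have h1 := Bd.prod hS (m := 1) Finset.univ (fun t : Fin μ.1 => d (μ.2 t)) fun t _ => hd' _
    refine Bd.mono hS ?_ (Bd.mul hS (hP' _) h1)
    have := μ.1.2
    simp only [Finset.card_univ, Fintype.card_fin, one_mul]
    omega
  have hT : Polynomial.aeval (∑ i, d i ⊗ₜ[RatFunc ℚ] (f i : LaurentSeries ℚ)) P =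
      ∑ μ, n μ ⊗ₜ[RatFunc ℚ] (g μ : LaurentSeries ℚ) := by
    rw [Polynomial.aeval_eq_sum_range, Finset.sum_range, Fintype.sum_sigma]
    refine Finset.sum_congr rfl fun j _ => ?_
    rw [Fintype.sum_pow, Finset.smul_sum]
    refine Finset.sum_congr rfl fun φ _ => ?_
    rw [tmul_prod, TensorProduct.smul_tmul', smul_eq_mul]
    simp only [n, g]
    rw [map_prod]
  rw [hT]
  apply tensor_zero
  intro θ
  refine key hX hS n g (A + D) hn hn' (m + (A + D)) (fun N => ?_) θ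
  have hE : P.eval (∑ i, d i * Ev b N (f i)) = ∑ μ : ι, n μ * ∏ t, Ev b N (f (μ.2 t)) := by
    rw [Polynomial.eval_eq_sum_range, Finset.sum_range, Fintype.sum_sigma]
    refine Finset.sum_congr rfl fun j _ => ?_
    rw [Fintype.sum_pow, Finset.mul_sum]
    refine Finset.sum_congr rfl fun φ _ => ?_
    rw [Finset.prod_mul_distrib]
    simp only [n]
    ring
  have hsplit : b ^ N * ∑ μ : ι, n μ * Ev b N (g μ) =
      b ^ N * P.eval (∑ i, d i * Ev b N (f i)) -
        ∑ μ : ι, n μ * (b ^ N * (∏ t, Ev b N (f (μ.2 t)) - Ev b N (g μ))) := by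
    rw [hE, Finset.mul_sum, Finset.mul_sum, ← Finset.sum_sub_distrib]
    refine Finset.sum_congr rfl fun μ _ => ?_
    ring
  rw [hsplit]
  refine (Bd.mono hS (by omega) (h N)).sub (Bd.mono hS (by omega) (Bd.sum (m := A + D) _ _ fun μ _ => ?_))
  have h5 := Bd.mul hS (hn' μ) (Ev_prod hS N Finset.univ fun t => f (μ.2 t))
  rwa [add_zero] at h5

end tensor

end Pool.Agent.H91.DG
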