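import Mathlib

/-!
# Ordered fields with an infinitely large base `b` and a ring `Z` of integers
-/

namespace Pool.Agent.H91.DG

open Finset

variable {F : Type*} [Field F] [LinearOrder F] [IsStrictOrderedRing F]

/-- `x = O(b ^ m)` -/
def Bd (b : F) (m : ℕ) (x : F) : Prop := ∃ c : ℚ, |x| ≤ (c : F) * b ^ m

/-- `b` is infinite, `Z` is a discrete subring (up to rational factors) with division by `b` -/
structure Sys (b : F) (Z : Subring F) : Prop where
  inf : ∀ c : ℚ, (c : F) < b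
  bmem : b ∈ Z
  rat : ∀ q : ℚ, (q : F) ∈ Z
  disc : ∀ x ∈ Z, Bd b 0 x → ∃ q : ℚ, x = q
  dvd : ∀ m, ∀ x ∈ Z, Bd b (m + 1) x → ∃ y ∈ Z, ∃ v ∈ Z, Bd b m y ∧ Bd b 1 v ∧ x = b * y + v

section basic

variable {b : F} {Z : Subring F} (hS : Sys b Z)

include hS

theorem Sys.one_lt : 1 < b := by
  have := hS.inf 1
  simpa using this

theorem Sys.pos : 0 < b := zero_lt_one.trans hS.one_lt

omit hS in
theorem Bd.add {m : ℕ} {x y : F} (hx : Bd b m x) (hy : Bd b m y) : Bd b m (x + y) := by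
  obtain ⟨c, hc⟩ := hx
  obtain ⟨c', hc'⟩ := hy
  refine ⟨c + c', (abs_add_le _ _).trans ?_⟩
  push_cast
  linarith

omit hS in
theorem Bd.zero {m : ℕ} : Bd b m (0 : F) := ⟨0, by simp⟩

omit hS in
theorem Bd.neg {m : ℕ} {x : F} (hx : Bd b m x) : Bd b m (-x) := by
  obtain ⟨c, hc⟩ := hx
  exact ⟨c, by rwa [abs_neg]⟩

omit hS in
theorem Bd.sub {m : ℕ} {x y : F} (hx : Bd b m x) (hy : Bd b m y) : Bd b m (x - y) := by
  rw [sub_eq_add_neg]
  exact hx.add hy.neg

omit hS in
theorem Bd.sum {m : ℕ} {ι : Type*} (s : Finset ι) (x : ι → F) (h : ∀ i ∈ s, Bd b m (x i)) :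
    Bd b m (∑ i ∈ s, x i) := by
  classical
  induction s using Finset.induction_on with
  | empty => simpa using Bd.zero
  | insert a s ha ih =>
    rw [Finset.sum_insert ha]
    exact (h a (Finset.mem_insert_self _ _)).add
      (ih fun i hi => h i (Finset.mem_insert_of_mem hi))

theorem Bd.mul {m m' : ℕ} {x y : F} (hx : Bd b m x) (hy : Bd b m' y) : Bd b (m + m') (x * y) := by
  obtain ⟨c, hc⟩ := hx
  obtain ⟨c', hc'⟩ := hy
  have hb := hS.pos
  have hc0 : 0 ≤ (c : F) * b ^ m := (abs_nonneg _).trans hc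
  refine ⟨c * c', ?_⟩
  rw [abs_mul, pow_add]
  push_cast
  calc |x| * |y| ≤ (c * b ^ m) * (c' * b ^ m') := mul_le_mul hc hc' (abs_nonneg _) hc0
    _ = c * c' * (b ^ m * b ^ m') := by ring

theorem Bd.mono {m m' : ℕ} (h : m ≤ m') {x : F} (hx : Bd b m x) : Bd b m' x := by
  obtain ⟨c, hc⟩ := hx
  have hb := hS.one_lt
  have hc0 : 0 ≤ (c : F) * b ^ m := (abs_nonneg _).trans hc
  have hbm : 0 < b ^ m := pow_pos hS.pos _
  have hc1 : 0 ≤ (c : F) := nonneg_of_mul_nonneg_left hc0 hbm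
  exact ⟨c, hc.trans (mul_le_mul_of_nonneg_left (pow_le_pow_right₀ hb.le h) hc1)⟩

omit hS in
theorem Bd.rat (q : ℚ) : Bd b 0 (q : F) := ⟨|q|, by simp⟩

omit hS in
theorem Bd.smul {m : ℕ} (q : ℚ) {x : F} (hx : Bd b m x) : Bd b m ((q : F) * x) := by
  obtain ⟨c, hc⟩ := hx
  refine ⟨|q| * c, ?_⟩
  rw [abs_mul]
  push_cast
  calc |(q : F)| * |x| ≤ |(q : F)| * (c * b ^ m) := mul_le_mul_of_nonneg_left hc (abs_nonneg _)
    _ = |(q : F)| * c * b ^ m := by ring

theorem Bd.pow_self (m : ℕ) : Bd b m (b ^ m) := by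
  refine ⟨1, ?_⟩
  rw [abs_of_pos (pow_pos hS.pos _)]
  simp

theorem Bd.self : Bd b 1 b := by
  have := Bd.pow_self hS 1
  rwa [pow_one] at this

theorem Bd.of_mul_pow {m J : ℕ} {x : F} (h : Bd b (J + m) (b ^ J * x)) : Bd b m x := by
  obtain ⟨c, hc⟩ := h
  refine ⟨c, ?_⟩
  have hb : 0 < b ^ J := pow_pos hS.pos _
  rw [abs_mul, abs_of_pos hb, pow_add] at hc
  have : b ^ J * |x| ≤ b ^ J * (c * b ^ m) := by linarith [hc, mul_left_comm (c : F) (b ^ J) (b ^ m)]
  exact le_of_mul_le_mul_left this hb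

theorem Bd.prod {m : ℕ} {ι : Type*} (s : Finset ι) (x : ι → F) (h : ∀ i ∈ s, Bd b m (x i)) :
    Bd b (m * s.card) (∏ i ∈ s, x i) := by
  classical
  induction s using Finset.induction_on with
  | empty => simpa using Bd.rat (b := b) 1
  | insert a s ha ih =>
    rw [Finset.prod_insert ha, Finset.card_insert_of_notMem ha, mul_add, mul_one, add_comm]
    exact Bd.mul hS (h a (Finset.mem_insert_self _ _))
      (ih fun i hi => h i (Finset.mem_insert_of_mem hi))

end basic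

section digits

variable {b : F} {Z : Subring F}

/-- the `ℚ`-space of all `∑_{j ≤ J} b ^ j v_j` with `v_j ∈ V` -/
def WW (b : F) (V : Submodule ℚ F) : ℕ → Submodule ℚ F
  | 0 => V
  | J + 1 => WW b V J ⊔ V.map (LinearMap.mulLeft ℚ (b ^ (J + 1)))

theorem WW_mono (V : Submodule ℚ F) {J J' : ℕ} (h : J ≤ J') : WW b V J ≤ WW b V J' := by
  induction J' with
  | zero => rw [Nat.le_zero.1 h]
  | succ J' ih =>
    rcases Nat.lt_or_ge J (J' + 1) with h1 | h1
    · exact (ih (by omega)).trans le_sup_left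
    · rw [le_antisymm h h1]

theorem pow_mul_mem_WW (V : Submodule ℚ F) {v : F} (hv : v ∈ V) (J : ℕ) : b ^ J * v ∈ WW b V J := by
  cases J with
  | zero => simpa [WW] using hv
  | succ J => exact Submodule.mem_sup_right ⟨v, hv, rfl⟩

theorem mul_mem_WW (V : Submodule ℚ F) {x : F} {J : ℕ} (hx : x ∈ WW b V J) :
    b * x ∈ WW b V (J + 1) := by
  induction J generalizing x with
  | zero =>
    have := pow_mul_mem_WW (b := b) V (v := x) hx 1
    rwa [pow_one] at this
  | succ J ih =>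
    obtain ⟨y, hy, z, ⟨v, hv, rfl⟩, rfl⟩ := Submodule.mem_sup.1 hx
    rw [mul_add]
    refine add_mem (WW_mono V (by omega) (ih hy)) ?_
    have e : b * (LinearMap.mulLeft ℚ (b ^ (J + 1)) v) = b ^ (J + 1 + 1) * v := by
      rw [LinearMap.mulLeft_apply]; ring
    rw [e]
    exact pow_mul_mem_WW V hv _

theorem pow_mul_mem_WW' (V : Submodule ℚ F) {x : F} {J : ℕ} (hx : x ∈ WW b V J) (i : ℕ) :
    b ^ i * x ∈ WW b V (J + i) := by
  induction i with
  | zero => simpa using hx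
  | succ i ih =>
    have := mul_mem_WW V ih
    rwa [← mul_assoc, ← pow_succ'] at this

/-- digits of an integer -/
theorem exists_digits (hS : Sys b Z) (m : ℕ) {x : F} (hx : x ∈ Z) (hb : Bd b m x) :
    ∃ s : Finset F, (∀ v ∈ s, v ∈ Z ∧ Bd b 1 v) ∧
      ∀ V : Submodule ℚ F, (s : Set F) ⊆ V → x ∈ WW b V m := by
  classical
  induction m generalizing x with
  | zero =>
    refine ⟨{x}, ?_, ?_⟩
    · intro v hv
      rw [Finset.mem_singleton] at hv
      subst hv
      exact ⟨hx, Bd.mono hS (by omega) hb⟩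
    · intro V hV
      exact hV (by simp)
  | succ m ih =>
    obtain ⟨y, hy, v, hv, hyb, hvb, rfl⟩ := hS.dvd m x hx hb
    obtain ⟨s, hs, hs'⟩ := ih hy hyb
    refine ⟨insert v s, ?_, ?_⟩
    · intro w hw
      rcases Finset.mem_insert.1 hw with rfl | hw
      · exact ⟨hv, hvb⟩
      · exact hs w hw
    · intro V hV
      have h1 : v ∈ V := hV (by simp)
      have h2 := hs' V (fun w hw => hV (by
        rw [Finset.mem_coe] at hw
        exact Finset.mem_coe.2 (Finset.mem_insert_of_mem hw)))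
      exact add_mem (mul_mem_WW V h2) (WW_mono V (Nat.zero_le _) h1)

theorem WW_Bd (hS : Sys b Z) (V : Submodule ℚ F) (hV : ∀ v ∈ V, v ∈ Z ∧ Bd b 1 v) {J : ℕ} {x : F}
    (hx : x ∈ WW b V J) : Bd b (J + 1) x := by
  induction J generalizing x with
  | zero => simpa using (hV x hx).2
  | succ J ih =>
    obtain ⟨y, hy, z, ⟨v, hv, rfl⟩, rfl⟩ := Submodule.mem_sup.1 hx
    refine (Bd.mono hS (by omega) (ih hy)).add ?_
    rw [LinearMap.mulLeft_apply]
    exact Bd.mul hS (Bd.pow_self hS _) (hV v hv).2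

/-- bounded elements need few digits -/
theorem WW_small (hS : Sys b Z) (V : Submodule ℚ F) (hV : ∀ v ∈ V, v ∈ Z ∧ Bd b 1 v) (hb : b ∈ V)
    (m J : ℕ) {x : F} (hx : x ∈ WW b V J) (hxm : Bd b (m + 1) x) : x ∈ WW b V m := by
  induction J generalizing x with
  | zero => exact WW_mono V (Nat.zero_le _) hx
  | succ J ih =>
    rcases Nat.lt_or_ge m (J + 1) with h1 | h1
    · obtain ⟨y, hy, z, ⟨v, hv, rfl⟩, rfl⟩ := Submodule.mem_sup.1 hx
      rw [LinearMap.mulLeft_apply] at hxm ⊢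
      have h2 : Bd b (J + 1) (b ^ (J + 1) * v) := by
        have h3 := (Bd.mono hS (show m + 1 ≤ J + 1 by omega) hxm).sub (WW_Bd hS V hV hy)
        rwa [add_sub_cancel_left] at h3
      have h4 : Bd b 0 v := Bd.of_mul_pow hS (J := J + 1) (by simpa using h2)
      obtain ⟨q, rfl⟩ := hS.disc v (hV v hv).1 h4
      have h5 : b ^ (J + 1) * (q : F) ∈ WW b V J := by
        have e : b ^ (J + 1) * (q : F) = b ^ J * (q • b) := by
          rw [Rat.smul_def]; ring
        rw [e]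
        exact pow_mul_mem_WW V (V.smul_mem q hb) J
      exact ih (add_mem hy h5) hxm
    · exact WW_mono V h1 hx

end digits

end Pool.Agent.H91.DG
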